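import Pool.Agent.K3h8.KS.Defs
import Pool.Agent.Y112.SC.Main

/-!
# Objects built from a given one by Schur functors: definitions
-/

set_option autoImplicit false

open CategoryTheory Limits MonoidalCategory
open Pool.Agent.Y112.KD
open Pool.Agent.Y112.SC (IsSchurSummand)
open Pool.Agent.K3h8.KS (IsPower)

namespace Pool.Agent.K3h8.SF

universe v u

section

variable {C : Type u} [Category.{v} C] [MonoidalCategory C] [SymmetricCategory C]
  [Preadditive C] [Linear ℚ C]

/-- `T` is built from `M` by finitely many steps of the following kinds:
* from `T` to a nonzero direct summand `T'` of `T ⊗ ⋯ ⊗ T` (`n ≥ 1` factors) which is cut out by an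
  idempotent of the image of the group algebra `ℚ[S_n]` (a value of a Schur functor);
* from `T` to its `n`-th symmetric power (`η = 1`) or its `n`-th exterior power (`η = -1`), `n ≥ 1`
  (here the power may be zero);
* from `T` to a nonzero tensor product `T ⊗ N` with an arbitrary object `N`;
* from `T` to an object `T'` with the direct summand `T`. -/
inductive Built (M : C) : C → Prop
  | base : Built M M
  | schur {T T' : C} (n : ℕ) : Built M T → 1 ≤ n → IsSchurSummand T T' n → ¬ IsZero T' →
      Built M T'
  | power {T T' : C} (η : ℚ) (n : ℕ) : Built M T → (η = 1 ∨ η = -1) → 1 ≤ n →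
      IsPower η T T' n → Built M T'
  | tensor {T : C} (N : C) : Built M T → ¬ IsZero (T ⊗ N) → Built M (T ⊗ N)
  | summand {T T' : C} (i : T ⟶ T') (r : T' ⟶ T) : Built M T → i ≫ r = 𝟙 T → Built M T'

end

end Pool.Agent.K3h8.SF
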