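import Pool.Agent.K3h8.SF.Pure
import Pool.Agent.K3h43.SF.MonC

/-!
# Schur functors of objects of mixed parity: statements of the parts
-/

set_option autoImplicit false
set_option linter.unusedSectionVars false
set_option linter.unusedSimpArgs false

open CategoryTheory Limits MonoidalCategory
open Pool.Agent.Y112.SR Pool.Agent.Y112.KD Pool.Agent.Y112.SC Pool.Agent.R905 Pool.Agent.K3h8.KS
open Pool.Agent.Y116.MT (tr)

namespace Pool.Agent.K3h8.SF

universe v u w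

section

variable {C : Type u} [Category.{v} C] [MonoidalCategory C] [SymmetricCategory C]

/-- An operator on the first letter. -/
def fl {X : C} (m : ℕ) (g : X ⟶ X) : tp X (m + 1) ⟶ tp X (m + 1) :=
  (kap X m).inv ≫ (g ▷ tp X m) ≫ (kap X m).hom

end

section

variable {C : Type u} [Category.{v} C] [MonoidalCategory C] [SymmetricCategory C]
  [Preadditive C] [Linear ℚ C]

/-- A splitting of a summand of a tensor power which is cut out by an idempotent of the algebra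
generated by the exchanges. -/
def Spl {X T : C} {n : ℕ} (i : T ⟶ tp X n) (r : tp X n ⟶ T) : Prop :=
  i ≫ r = 𝟙 T ∧ en (r ≫ i) ∈ Algebra.adjoin ℚ {s : End (tp X n) | IsSwap X n s}

end

/-- ALG: nilpotence of the letters. -/
def ALG : Prop := ∀ (A : Type v) [Ring A] [Algebra ℚ A] (l : List A) (p : A),
  (∀ x ∈ l, ∀ y ∈ l, x * y = y * x) → p * p = p →
  (∀ x : ℚ, Commute ((l.map (fun a => 1 + x • a)).prod) p) →
  (∀ x : ℚ, IsNilpotent (((l.map (fun a => 1 + x • a)).prod - 1) * p)) →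
  ∀ a ∈ l, ∃ L : ℕ, a ^ L * p = 0

section

variable (C : Type u) [Category.{v} C] [Preadditive C] [Linear ℚ C] [MonoidalCategory C]
  [MonoidalPreadditive C] [MonoidalLinear ℚ C] [SymmetricCategory C] [RightRigidCategory C]

/-- N1: homologically trivial letters are nilpotent on Schur summands. -/
def N1s : Prop := ∀ (K : Type w) [Field K] (R : SuperRealisation C K) (X T : C) (m : ℕ)
  (i : T ⟶ tp X (m + 1)) (r : tp X (m + 1) ⟶ T), Spl i r → HomNil R T →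
  ∀ f : End X, R.H.map (f : X ⟶ X) = 0 →
    ∃ L : ℕ, (r ≫ i) ≫ fl m ((f ^ L : End X) : X ⟶ X) = 0

/-- PF: partial traces and operators on the first letter. -/
def PFs : Prop := ∀ (X : C) (m : ℕ) (w : tp X (m + 1) ⟶ tp X (m + 1)) (g : X ⟶ X),
  pt1 m (w ≫ fl m g) = pt1 m w ≫ (tp X 0 ◁ g)

/-- HL: a splitting such that the trace of the parity projector of the first letter is not zero. -/
def HLs : Prop := ∀ (K : Type w) [Field K] (R : SuperRealisation C K) (_ : UnitQ C) (X T : C)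
  (m : ℕ) (i : T ⟶ tp X (m + 1)) (r : tp X (m + 1) ⟶ T), Spl i r → ¬ IsZero (R.H.obj T) →
  ∀ d : ℚ, (d = 1 ∨ d = -1) → R.par X ≠ ((-d : ℚ) : K) • 𝟙 _ →
  ∃ (i₁ : T ⟶ tp X (m + 1)) (r₁ : tp X (m + 1) ⟶ T), Spl i₁ r₁ ∧
    LinearMap.trace K (R.H.obj (tp X (m + 1)))
      (up R X (𝟙 _ + (d : K) • R.par (tp X 1)) m ≫ R.H.map (r₁ ≫ i₁)).hom ≠ 0

/-- TRC: the shape of the partial trace, with parity operators. -/
def TRC : Prop := ∀ (K : Type w) [Field K] (R : SuperRealisation C K) (X T : C)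
  (m : ℕ) (i : T ⟶ tp X (m + 1)) (r : tp X (m + 1) ⟶ T), Spl i r →
  ∀ d : ℚ, (d = 1 ∨ d = -1) →
    LinearMap.trace K (R.H.obj (tp X (m + 1)))
      (up R X (𝟙 _ + (d : K) • R.par (tp X 1)) m ≫ R.H.map (r ≫ i)).hom ≠ 0 →
  ∀ s : X ⟶ X, R.H.map s = R.par X →
    ∃ α β : ℚ, α + d * β ≠ 0 ∧
      R.H.map ((λ_ X).inv ≫ pt1 m (tpm s (m + 1) ≫ r ≫ i) ≫ (λ_ X).hom) =
        (α : K) • 𝟙 _ + (β : K) • R.par X

/-- LIFT: lifting the parity operator. -/
def LIFT [IsIdempotentComplete C] : Prop :=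
  ∀ (K : Type w) [Field K] (R : SuperRealisation C K) (X : C), R.CPlus X →
  ∀ y : X ⟶ X, R.H.map y = 𝟙 _ →
  (∀ f : End X, R.H.map (f : X ⟶ X) = 0 → ∃ L : ℕ, y ≫ ((f ^ L : End X) : X ⟶ X) = 0) →
  ∃ e : X ⟶ X, e ≫ e = e ∧ R.H.map e = 0 ∧
    (∀ f : End X, R.H.map (f : X ⟶ X) = 0 →
      ∃ L : ℕ, ((f ^ L : End X) : X ⟶ X) = e ≫ ((f ^ L : End X) : X ⟶ X)) ∧
    ∀ d : ℚ, (d = 1 ∨ d = -1) → ∃ s : X ⟶ X, s ≫ s = 𝟙 X ∧ R.H.map s = R.par X ∧
      s ≫ e = d • e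

end

end Pool.Agent.K3h8.SF
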