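import Pool.Agent.K3h8.SF.Nilp
import Pool.Agent.K3h12.SF.Trc
import Pool.Agent.K3h16.SF.N1
import Pool.Agent.K3h58.SF.Lift
import Pool.Agent.K3h62.SF.ALG
import Pool.Agent.K3h87.SF.HL

/-!
# Kimura finiteness descends from Schur functors
-/

set_option autoImplicit false
set_option linter.unusedSectionVars false
set_option linter.unusedSimpArgs false
set_option backward.isDefEq.respectTransparency false
set_option backward.defeqAttrib.useBackward true

open CategoryTheory Limits MonoidalCategory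
open Pool.Agent.Y112.SR Pool.Agent.Y112.KD Pool.Agent.Y112.SC Pool.Agent.R905 Pool.Agent.K3h8.KS
open Pool.Agent.Y116.MT (tr)

namespace Pool.Agent.K3h8.SF

universe v u w

section

variable {C : Type u} [Category.{v} C] [Preadditive C] [Linear ℚ C] [MonoidalCategory C]
  [MonoidalPreadditive C] [MonoidalLinear ℚ C] [SymmetricCategory C] [RightRigidCategory C]
  [IsIdempotentComplete C] {K : Type w} [Field K] (R : SuperRealisation C K)

include R in
/-- **Kimura finiteness descends from Schur functors.** -/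
theorem kimura_of_schur (hA : ALG.{v}) (hU : UnitQ C) {M T : C} {n : ℕ} (hn : 1 ≤ n)
    (hT : IsSchurSummand M T n) (h0 : ¬ IsZero (R.H.obj T)) (h : IsKimuraFinite T) :
    IsKimuraFinite M := by
  have hK := R_charZero R
  have hTnil := h.homNil R hU
  have hC : R.CPlus M := cplus_of_schur R hn hT h0 (h.cplus R)
  obtain ⟨m, rfl⟩ := Nat.exists_eq_add_of_le' hn
  obtain ⟨i, r, hs⟩ := hT
  have hM : HomNil R M := homNil_of_schur R (Pool.Agent.K3h16.SFN1.t_N1s C hA)
    (Pool.Agent.K3h12.SFT.t_PFs C) (Pool.Agent.K3h87.SF.t_HLs C) (Pool.Agent.K3h12.SFT.t_TRC C)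
    Pool.Agent.K3h58.SF.t_LIFT hU i r hs h0 hTnil hC
  obtain ⟨E, O, a, b, a', b', h1, h2, h3, hE, hO⟩ := exists_parts R hC hM
  have hab' : a ≫ b' = 0 := by
    have e1 : a ≫ (b ≫ a + b' ≫ a') = a := by rw [h3, Category.comp_id]
    rw [Preadditive.comp_add, reassoc_of% h1] at e1
    have e2 : a ≫ b' ≫ a' = 0 := by
      have := e1
      rwa [add_eq_left] at this
    calc a ≫ b' = (a ≫ b' ≫ a') ≫ b' := by simp only [Category.assoc]; rw [h2, Category.comp_id]
      _ = 0 := by rw [e2, zero_comp]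
  have hab : a' ≫ b = 0 := by
    have e1 : a' ≫ (b ≫ a + b' ≫ a') = a' := by rw [h3, Category.comp_id]
    rw [Preadditive.comp_add, reassoc_of% h2] at e1
    have e2 : a' ≫ b ≫ a = 0 := by
      have := e1
      rwa [add_eq_right] at this
    calc a' ≫ b = (a' ≫ b ≫ a) ≫ b := by simp only [Category.assoc]; rw [h1, Category.comp_id]
      _ = 0 := by rw [e2, zero_comp]
  set s : M ⟶ M := b ≫ a - b' ≫ a' with hsdef
  have hss : s ≫ s = 𝟙 M := by
    rw [hsdef, Preadditive.sub_comp, Preadditive.comp_sub, Preadditive.comp_sub]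
    simp only [Category.assoc]
    rw [reassoc_of% h1, reassoc_of% hab', reassoc_of% hab, reassoc_of% h2, zero_comp, zero_comp,
      comp_zero, comp_zero, sub_zero, zero_sub, sub_neg_eq_add, h3]
  have hHs : R.H.map s = R.par M := by
    have e1 : R.par M = (R.H.map (b ≫ a) + R.H.map (b' ≫ a')) ≫ R.par M := by
      rw [← Functor.map_add, h3, CategoryTheory.Functor.map_id, Category.id_comp]
    rw [e1, Preadditive.add_comp, Functor.map_comp, Functor.map_comp, Category.assoc,
      Category.assoc, R.par_natural, R.par_natural, hE, hO, hsdef, Functor.map_sub,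
      Functor.map_comp, Functor.map_comp]
    simp only [Linear.smul_comp, Linear.comp_smul, Category.id_comp, one_smul, neg_smul,
      Preadditive.neg_comp, Preadditive.comp_neg]
    rw [sub_eq_add_neg]
  have hpe : b ≫ a = (2⁻¹ : ℚ) • (𝟙 M + (1 : ℚ) • s) := by
    have e1 : 𝟙 M + (1 : ℚ) • s = (2 : ℚ) • (b ≫ a) := by
      rw [one_smul, ← h3, hsdef, two_smul]
      abel
    rw [e1, smul_smul]
    norm_num
  have hpo : b' ≫ a' = (2⁻¹ : ℚ) • (𝟙 M + (-1 : ℚ) • s) := by
    have e1 : 𝟙 M + (-1 : ℚ) • s = (2 : ℚ) • (b' ≫ a') := by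
      rw [neg_smul, one_smul, ← h3, hsdef, two_smul]
      abel
    rw [e1, smul_smul]
    norm_num
  obtain ⟨k, hk⟩ := part_of_schur R (Pool.Agent.K3h87.SF.t_HLs C) hU i r hs h0 h hss hHs hM
    (Or.inl rfl) a b h1 hpe
  obtain ⟨l, hl⟩ := part_of_schur R (Pool.Agent.K3h87.SF.t_HLs C) hU i r hs h0 h hss hHs hM
    (Or.inr rfl) a' b' h2 hpo
  rw [neg_neg] at hl
  exact (isKimuraFinite_iff M).2 ⟨E, O, a, b, a', b', h1, h2, h3, ⟨k, hk⟩, l, hl⟩

end

end Pool.Agent.K3h8.SF
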