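import Pool.Agent.K3h8.SF.Defs
import Pool.Agent.K3h8.SF.General

/-!
# Kimura finiteness descends from Schur functors: the final form
-/

set_option autoImplicit false
set_option linter.unusedSectionVars false
set_option linter.unusedSimpArgs false

open CategoryTheory Limits MonoidalCategory
open Pool.Agent.Y112.SR Pool.Agent.Y112.KD Pool.Agent.Y112.SC Pool.Agent.R905 Pool.Agent.K3h8.KS

namespace Pool.Agent.K3h8.SF

universe v u w

section

variable {C : Type u} [Category.{v} C] [Preadditive C] [Linear ℚ C] [MonoidalCategory C]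
  [MonoidalPreadditive C] [MonoidalLinear ℚ C] [SymmetricCategory C] [RightRigidCategory C]
  [IsIdempotentComplete C] {K : Type w} [Field K] (R : SuperRealisation C K)

include R in
/-- The realisation of a nonzero Kimura finite object is not zero. -/
lemma not_isZero_map (hU : UnitQ C) {T : C} (h : IsKimuraFinite T) (h0 : ¬ IsZero T) :
    ¬ IsZero (R.H.obj T) := fun hz => h0 (by
  rw [IsZero.iff_id_eq_zero]
  exact (h.homNil R hU).id_eq_zero hz)

lemma isZero_left {M N : C} (h : ¬ IsZero (R.H.obj (M ⊗ N))) : ¬ IsZero (R.H.obj M) := by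
  intro hz
  apply h
  rw [IsZero.iff_id_eq_zero] at hz ⊢
  rw [← bx_one R M N, hz, bx_zero_left]

lemma isZero_right {M N : C} (h : ¬ IsZero (R.H.obj (M ⊗ N))) : ¬ IsZero (R.H.obj N) := by
  intro hz
  apply h
  rw [IsZero.iff_id_eq_zero] at hz ⊢
  rw [← bx_one R M N, hz, bx_zero_right]

include R in
/-- **Kimura finiteness descends from all objects built from `M`.** -/
theorem kimura_of_built (hU : UnitQ C) {M T : C} (hT : Built M T) (h : IsKimuraFinite T) :
    IsKimuraFinite M := by
  induction hT with
  | base => exact h
  | schur n _ hn hs h0 ih =>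
    exact ih (kimura_of_schur R Pool.Agent.K3h62.SF.t_ALG hU hn hs (not_isZero_map R hU h h0) h)
  | power η n _ hη hn hp ih => exact ih (kimura_of_power R hU hη hn hp h)
  | tensor N _ h0 ih =>
    have h1 := not_isZero_map R hU h h0
    exact ih (isKimuraFinite_left R hU (isZero_left R h1) (isZero_right R h1) h)
  | summand i r _ hir ih => exact ih (h.retract R hU i r hir)

end

end Pool.Agent.K3h8.SF
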