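import Pool.Agent.K3h8.SF.Xi

/-!
# Schur functors of objects of pure parity
-/

set_option autoImplicit false
set_option linter.unusedSectionVars false
set_option linter.unusedSimpArgs false
set_option backward.isDefEq.respectTransparency false
set_option backward.defeqAttrib.useBackward true

open CategoryTheory Limits MonoidalCategory
open Pool.Agent.Y112.SR Pool.Agent.Y112.KD Pool.Agent.Y112.SC Pool.Agent.R905 Pool.Agent.K3h8.KS
open Pool.Agent.Y116.MT (tr)

namespace Pool.Agent.K3h8.SF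

universe v u w

section

variable {C : Type u} [Category.{v} C] [MonoidalCategory C] [SymmetricCategory C]
  [Preadditive C] [Linear ℚ C] [MonoidalPreadditive C] [MonoidalLinear ℚ C]

lemma adjoin_le_nat {X : C} (s : X ⟶ X) {n : ℕ} {x : End (tp X n)}
    (hx : x ∈ Algebra.adjoin ℚ {g : End (tp X n) | IsSwap X n g}) : x ∈ Nat' s n := by
  have h1 : ∀ (n : ℕ) (g : tp X n ⟶ tp X n), IsSwap X n g → Gen s n g := by
    intro n g hg
    induction hg with
    | last n => exact Gen.last n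
    | lift n g _ ih => exact Gen.lift n g ih
  have h2 : Algebra.adjoin ℚ {g : End (tp X n) | IsSwap X n g} ≤ Nat' s n :=
    Algebra.adjoin_mono fun g hg => h1 n g hg
  exact h2 hx

/-- Regularity of the algebra of natural operators of blocks. -/
lemma bl_regular (h1 : MONC1 C) {X : C} {s : X ⟶ X} (hs : s ≫ s = 𝟙 X) (n k : ℕ)
    {w : End (tp (tp X n) k)} (hw : w ∈ Bl s n k) : ∃ u ∈ Bl s n k, w * u * w = w := by
  obtain ⟨u, hu, h⟩ := h1 X s hs _ (cj (th X n k) w) hw
  have e1 : ∀ z : End (tp X (NN n k)), cj (th X n k) (cj (th X n k).symm z) = z := by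
    intro z
    change (th X n k).inv ≫ ((th X n k).hom ≫ (z : tp X (NN n k) ⟶ tp X (NN n k)) ≫
      (th X n k).inv) ≫ (th X n k).hom = z
    simp
  have e2 : ∀ z : End (tp (tp X n) k), cj (th X n k).symm (cj (th X n k) z) = z := by
    intro z
    change (th X n k).hom ≫ ((th X n k).inv ≫ (z : tp (tp X n) k ⟶ tp (tp X n) k) ≫
      (th X n k).hom) ≫ (th X n k).inv = z
    simp
  refine ⟨cj (th X n k).symm u, ?_, ?_⟩
  · change cj (th X n k) (cj (th X n k).symm u) ∈ Nat' s (NN n k)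
    rw [e1]
    exact hu
  · have e3 : cj (th X n k).symm (cj (th X n k) w * u * cj (th X n k) w) =
        cj (th X n k).symm (cj (th X n k) w) := congrArg (cj (th X n k).symm) h
    rw [map_mul, map_mul, e2] at e3
    exact e3

end

section

variable {C : Type u} [Category.{v} C] [Preadditive C] [Linear ℚ C] [MonoidalCategory C]
  [MonoidalPreadditive C] [MonoidalLinear ℚ C] [SymmetricCategory C]
  {K : Type w} [Field K] (R : SuperRealisation C K)

/-- Nilpotence and regular algebras. -/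
lemma lemw {X D : C} (S : Subalgebra ℚ (End X)) (hS : ∀ w ∈ S, ∃ u ∈ S, w * u * w = w)
    (q : X ⟶ D) (j : D ⟶ X) (hjq : j ≫ q = 𝟙 D) (hQ : en (q ≫ j) ∈ S) {f : X ⟶ X}
    (hf : en f ∈ S) (hD : HomNil R D) (hH : R.H.map ((q ≫ j) ≫ f) = 0) : (q ≫ j) ≫ f = 0 := by
  set w : X ⟶ X := (q ≫ j) ≫ f with hw
  have hwS : en w ∈ S := Subalgebra.mul_mem _ hf hQ
  obtain ⟨u, -, hu⟩ := hS _ hwS
  have h1 : w ≫ (u : X ⟶ X) ≫ w = w := hu
  set e : X ⟶ X := w ≫ (u : X ⟶ X) with he
  have hee : e ≫ e = e := by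
    rw [he, Category.assoc, reassoc_of% h1]
  have hew : e ≫ w = w := by rw [he, Category.assoc, h1]
  have hQe : (q ≫ j) ≫ e = e := by
    rw [he, hw]
    simp only [Category.assoc, reassoc_of% hjq]
  have hHe : R.H.map e = 0 := by rw [he, Functor.map_comp, hH, zero_comp]
  have hφ : R.H.map (j ≫ e ≫ q) = 0 := by
    rw [Functor.map_comp, Functor.map_comp, hHe, zero_comp, comp_zero]
  have hid : (j ≫ e ≫ q) ≫ (j ≫ e ≫ q) = j ≫ e ≫ q := by
    have e1 : (j ≫ e ≫ q) ≫ (j ≫ e ≫ q) = j ≫ e ≫ ((q ≫ j) ≫ e) ≫ q := by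
      simp only [Category.assoc]
    rw [e1, hQe, reassoc_of% hee]
  obtain ⟨N, hN⟩ := hD (en (j ≫ e ≫ q)) hφ
  have hpow : ∀ N : ℕ, (en (j ≫ e ≫ q)) ^ (N + 1) = en (j ≫ e ≫ q) := by
    intro N
    induction N with
    | zero => rw [zero_add, pow_one]
    | succ N ih => rw [pow_succ, ih]; exact hid
  have h0 : j ≫ e ≫ q = 0 := by
    have e1 := hpow N
    rw [pow_succ, hN, zero_mul] at e1
    exact e1.symm
  have he0 : e = 0 := by
    calc e = e ≫ e := hee.symm
      _ = ((q ≫ j) ≫ e) ≫ ((q ≫ j) ≫ e) := by rw [hQe]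
      _ = q ≫ (j ≫ e ≫ q) ≫ j ≫ e := by simp only [Category.assoc]
      _ = 0 := by rw [h0, zero_comp, comp_zero]
  rw [← hew, he0, zero_comp]

lemma map_whisker_zero {X Y : C} (f : X ⟶ X) (hf : R.H.map f = 0) : R.H.map (f ▷ Y) = 0 := by
  rw [map_whiskerRight_eq, hf, bx_zero_left]

lemma map_fx_zero {X : C} (m k : ℕ) (x : tp X k ⟶ tp X k) (hx : R.H.map x = 0) :
    R.H.map (fx m k x) = 0 := by
  rw [fx, Functor.map_comp, Functor.map_comp, Functor.map_comp, map_whisker_zero R x hx,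
    zero_comp, comp_zero, comp_zero]

variable [RightRigidCategory C]

/-- Idempotents of trace zero of pure objects are homologically trivial. -/
lemma map_idem_zero (hU : UnitQ C) {X : C} {d : ℚ} (hd : d * d = 1)
    (hX : R.par X = (d : K) • 𝟙 _) (a : X ⟶ X) (ha : a ≫ a = a)
    (h0 : trq hU X (a : End X) = 0) : R.H.map a = 0 := by
  have hK := R_charZero R
  have h1 := real_tr R hU a
  rw [h0, hX, Linear.comp_smul, Category.comp_id, ModuleCat.hom_smul, map_smul] at h1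
  have hd' : (d : K) ≠ 0 := by
    intro h
    have h2 : ((d * d : ℚ) : K) = 0 := by rw [Rat.cast_mul, h, zero_mul]
    rw [hd] at h2
    norm_num at h2
  have h2 : LinearMap.trace K (R.H.obj X) (R.H.map a).hom = 0 := by
    rw [Rat.cast_zero] at h1
    exact (smul_eq_zero.1 h1.symm).resolve_left hd'
  obtain ⟨p, hp, hp'⟩ := exists_rk R (R.H.map a) (by rw [← Functor.map_comp, ha]) hK
  apply hp'
  rw [h2] at hp
  exact_mod_cast hp.symm

lemma map_asym_zero [IsIdempotentComplete C] (hU : UnitQ C) {E : C} {d : ℚ} (hd : d * d = 1)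
    (hE : R.par E = (d : K) • 𝟙 _) : ∃ k : ℕ, R.H.map (asym (-d) E k) = 0 := by
  have hη : (-d) * (-d) = 1 := by rw [neg_mul_neg, hd]
  set f : ℕ := Module.finrank K (R.H.obj E) with hf
  have hδ : trq hU E (1 : End E) = d * f := trq_one R hU d hE
  have hdp : d ^ (f + 1) * d ^ (f + 1) = 1 := by rw [← mul_pow, hd, one_pow]
  refine ⟨f + 1, map_idem_zero R hU hdp ?_ _ (asym_idem hη E _) ?_⟩
  · have e1 := par_tp R hE (f + 1)
    rw [e1]
    push_cast
    rfl
  · rw [trq_asym_prod R hU hη, hδ]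
    rcases Nat.eq_zero_or_pos f with h0 | h0
    · rw [h0, Nat.cast_zero, mul_zero, mul_zero]
    · have h1 : cD (d * (f : ℚ)) (-d) (f - 1) = 0 := by
        rw [cD]
        have e1 : ((f - 1 : ℕ) : ℚ) + 1 = f := by
          rw [Nat.cast_sub h0]
          norm_num
        have e2 : ((f - 1 + 1 : ℕ) : ℚ) = f := by
          rw [Nat.sub_add_cancel h0]
        rw [e2]
        have e3 : d * (f : ℚ) + -d * f = 0 := by ring
        rw [e3, mul_zero]
      rw [Finset.prod_eq_zero (Finset.mem_range.2 (Nat.sub_lt h0 one_pos)) h1, zero_mul]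

lemma pt1_mem (h2 : MONC2 C) {X : C} {s : X ⟶ X} (hs : s ≫ s = 𝟙 X) {δ ε : ℚ}
    (hδ : tr (𝟙 X) = δ • 𝟙 _) (hε : tr s = ε • 𝟙 _) : ∀ (m : ℕ)
    (x : tp X (m + 1) ⟶ tp X (m + 1)), en x ∈ Nat' s (m + 1) → en (pt1 m x) ∈ Nat' s 1 := by
  intro m
  induction m with
  | zero => exact fun x hx => hx
  | succ m ih => exact fun x hx => ih (ptr x) (h2 X s hs δ ε hδ hε (m + 1) x hx)

include R in
lemma trq_pt1 (hU : UnitQ C) {X : C} : ∀ (m : ℕ) (x : tp X (m + 1) ⟶ tp X (m + 1)),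
    trq hU (tp X 1) (pt1 m x) = trq hU (tp X (m + 1)) x := by
  intro m
  induction m with
  | zero => exact fun x => rfl
  | succ m ih => exact fun x => (ih (ptr x)).trans (trq_ptr R hU x)

include R in
/-- **Schur functors of objects of pure parity.** -/
theorem schur_pure [IsIdempotentComplete C] (x1 : XI1 C) (x2 : XI2 C) (x3 : GAM C)
    (m1 : MONC1 C) (m2 : MONC2 C) (m3 : MONC3 C) (b1 : BC C) (hU : UnitQ C) {M T : C} {d : ℚ}
    (hd : d = 1 ∨ d = -1) (hM : R.par M = (d : K) • 𝟙 _) (m : ℕ) (i : T ⟶ tp M (m + 1))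
    (r : tp M (m + 1) ⟶ T) (hir : i ≫ r = 𝟙 T)
    (hri : en (r ≫ i) ∈ Algebra.adjoin ℚ {s : End (tp M (m + 1)) | IsSwap M (m + 1) s})
    (h0 : ¬ IsZero (R.H.obj T)) (hT : ∀ k, HomNil R (tp T k)) :
    ∃ k, asym (-d) M k = 0 := by
  have hK := R_charZero R
  have hdd : d * d = 1 := by rcases hd with rfl | rfl <;> norm_num
  have hs : 𝟙 M ≫ 𝟙 M = 𝟙 M := Category.comp_id _
  obtain ⟨k, hk⟩ := map_asym_zero R hU hdd hM
  refine ⟨k, ?_⟩
  set a : tp M k ⟶ tp M k := asym (-d) M k with ha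
  set p : tp M (m + 1) ⟶ tp M (m + 1) := r ≫ i with hp
  have hpN : en p ∈ Nat' (𝟙 M) (m + 1) := adjoin_le_nat (𝟙 M) hri
  -- the operator vanishes
  have hjq : tpm i k ≫ tpm r k = 𝟙 _ := by rw [tpm_comp, hir, tpm_id]
  have hqj : tpm r k ≫ tpm i k = tpm p k := by rw [tpm_comp]
  have h1 : tpm p k ≫ fx m k a = 0 := by
    have e1 := lemw R (Bl (𝟙 M) (m + 1) k) (fun w hw => bl_regular m1 hs (m + 1) k hw)
      (tpm r k) (tpm i k) hjq (by rw [hqj]; exact bl_tpm hpN k) (f := fx m k a)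
      (fx_adjoin_mem x1 x2 x3 (𝟙 M) m (asym_mem_adjoin (-d) M k)) (hT k)
      (by rw [Functor.map_comp, map_fx_zero R m k a hk, comp_zero])
    rwa [hqj] at e1
  -- remove the isomorphisms
  have h2 : Blk (𝟙 (tp M k)) a ((kap M m).hom ≫ p ≫ (kap M m).inv) := by
    unfold Blk
    rw [id_whiskerRight, Category.id_comp, ← tpm_comp, ← tpm_comp]
    have e2 : tpm (kap M m).hom k ≫ tpm (kap M m).inv k = 𝟙 _ := by
      rw [tpm_comp, Iso.hom_inv_id, tpm_id]
    have e3 := congrArg (fun z => unzip M (tp M m) k ≫ tpm (kap M m).hom k ≫ z ≫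
      tpm (kap M m).inv k ≫ zip M (tp M m) k) h1
    simp only [fx, Category.assoc, reassoc_of% e2, zero_comp, comp_zero, unzip_zip,
      Category.comp_id] at e3
    simp only [Category.assoc]
    exact e3
  have h3 := b1 M k m a p h2
  -- the scalar
  have h4 : en (pt1 m p) ∈ Nat' (𝟙 M) 1 := pt1_mem m2 hs (tr_one hU M) (tr_one hU M) m p hpN
  obtain ⟨α, β, h5⟩ := m3 M (𝟙 M) hs (pt1 m p) h4
  have h6 : pt1 m p = (α + β) • 𝟙 _ := by
    rw [h5, MonoidalCategory.whiskerLeft_id, add_smul]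
  have h7 : (λ_ M).inv ≫ pt1 m p ≫ (λ_ M).hom = (α + β) • 𝟙 M := by
    have e1 : (λ_ M).inv ≫ (𝟙 (tp M 1)) ≫ (λ_ M).hom = 𝟙 M := by
      rw [Category.id_comp, Iso.inv_hom_id]
    rw [h6, Linear.smul_comp, Linear.comp_smul, e1]
  rw [h7, tpm_smul, tpm_id, Linear.smul_comp, Category.id_comp] at h3
  -- the scalar is not zero
  have h8 : α + β ≠ 0 := by
    intro h8
    have e1 : trq hU (tp M (m + 1)) p = 0 := by
      rw [← trq_pt1 R hU m p, h6, h8, zero_smul]
      exact (trq hU (tp M 1)).map_zero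
    have e2 : trq hU T (1 : End T) = trq hU (tp M (m + 1)) p := by
      have f1 := trq_comm' R hU i r
      rw [hir] at f1
      exact f1
    have hTp : R.par T = ((d ^ (m + 1) : ℚ) : K) • 𝟙 _ := by
      have f1 := par_retract R (par_tp R hM (m + 1)) i r hir
      rw [f1]
      push_cast
      rfl
    rw [e1, trq_one R hU _ hTp] at e2
    have hd0 : d ^ (m + 1) ≠ 0 := by
      apply pow_ne_zero
      rcases hd with rfl | rfl <;> norm_num
    have e3 := (mul_eq_zero.1 e2).resolve_left hd0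
    exact finrank_ne_zero R h0 (by exact_mod_cast e3)
  exact (smul_eq_zero.1 h3).resolve_left (pow_ne_zero k h8)

end

end Pool.Agent.K3h8.SF
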