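import Pool.Agent.K3h8.SF.Pure
import Pool.Agent.K3h12.SF.Xi1
import Pool.Agent.K3h33.SF.BC
import Pool.Agent.K3h43.SF.MonC
import Pool.Agent.K3h90.SF.Noph
import Pool.Agent.K3h94.SF.Xi

/-!
# Kimura finiteness descends from Schur functors of objects of pure parity
-/

set_option autoImplicit false
set_option linter.unusedSectionVars false
set_option linter.unusedSimpArgs false
set_option backward.isDefEq.respectTransparency false
set_option backward.defeqAttrib.useBackward true

open CategoryTheory Limits MonoidalCategory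
open Pool.Agent.Y112.SR Pool.Agent.Y112.KD Pool.Agent.Y112.SC Pool.Agent.R905 Pool.Agent.K3h8.KS
open Pool.Agent.Y116.MT (tr)

namespace Pool.Agent.K3h8.SF

universe v u w

section

variable {C : Type u} [Category.{v} C] [Preadditive C] [Linear ℚ C] [MonoidalCategory C]
  [MonoidalPreadditive C] [MonoidalLinear ℚ C] [SymmetricCategory C] [RightRigidCategory C]
  [IsIdempotentComplete C] {K : Type w} [Field K] (R : SuperRealisation C K)

include R in
/-- Kimura finiteness descends from Schur functors of objects of pure parity. -/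
theorem kimura_of_schur_pure (hU : UnitQ C) {M T : C} {d : ℚ} (hd : d = 1 ∨ d = -1)
    (hM : R.par M = (d : K) • 𝟙 _) {n : ℕ} (hn : 1 ≤ n) (hT : IsSchurSummand M T n)
    (h0 : ¬ IsZero (R.H.obj T)) (h : IsKimuraFinite T) : IsKimuraFinite M := by
  obtain ⟨m, rfl⟩ := Nat.exists_eq_add_of_le' hn
  obtain ⟨i, r, hir, hri⟩ := hT
  have hTpar : R.par T = ((d ^ (m + 1) : ℚ) : K) • 𝟙 _ := by
    have e1 := par_retract R (par_tp R hM (m + 1)) i r hir
    rw [e1]
    push_cast
    rfl
  have hd1 : d ^ (m + 1) = 1 ∨ d ^ (m + 1) = -1 := by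
    rcases hd with rfl | rfl
    · left; rw [one_pow]
    · exact neg_one_pow_eq_or ℚ (m + 1)
  obtain ⟨N, hN⟩ := h.summand R hU (𝟙 T) (𝟙 T) (Category.comp_id _) hd1 hTpar
  have hκ : -(d ^ (m + 1)) = 1 ∨ -(d ^ (m + 1)) = -1 := by
    rcases hd1 with h | h
    · right; rw [h]
    · left; rw [h, neg_neg]
  have hnil := Pool.Agent.K3h90.SF.t_NOPH (C := C) K R hU T _ hκ N hN
  obtain ⟨k, hk⟩ := schur_pure R (Pool.Agent.K3h12.SF.t_XI1 C) (Pool.Agent.K3h94.SF.t_XI2 C)
    (Pool.Agent.K3h94.SF.t_GAM C) (Pool.Agent.K3h43.SF.t_MONC1 C) (Pool.Agent.K3h43.SF.t_MONC2 C)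
    (Pool.Agent.K3h43.SF.t_MONC3 C) Pool.Agent.K3h33.SF.t_BC hU hd hM m i r hir hri h0 hnil
  have hη : -d = 1 ∨ -d = -1 := by
    rcases hd with rfl | rfl
    · right; rfl
    · left; rw [neg_neg]
  exact kimura_of_asym hη hk

end

end Pool.Agent.K3h8.SF
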