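import Pool.Agent.K3h8.SF.Stm

/-!
# Natural operators and concatenation
-/

set_option autoImplicit false
set_option linter.unusedSectionVars false
set_option linter.unusedSimpArgs false

open CategoryTheory Limits MonoidalCategory
open Pool.Agent.Y112.SR Pool.Agent.Y112.KD Pool.Agent.R905 Pool.Agent.K3h8.KS
open Pool.Agent.Y116.MT (tr)

namespace Pool.Agent.K3h8.SF

universe v u w

section

variable {C : Type u} [Category.{v} C] [MonoidalCategory C] [SymmetricCategory C]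

lemma sw_assoc' (Y Q X : C) : (Y ◁ sw Q X) ≫ (α_ Y (Q ⊗ X) X).inv ≫ (α_ Y Q X).inv ▷ X =
    (α_ Y (Q ⊗ X) X).inv ≫ (α_ Y Q X).inv ▷ X ≫ sw (Y ⊗ Q) X := by
  simp only [sw]
  monoidal

lemma gen_right {X : C} {s : X ⟶ X} (a : ℕ) {b : ℕ} {g : tp X b ⟶ tp X b} (hg : Gen s b g) :
    ∃ g', Gen s (a + b) g' ∧ (tp X a ◁ g) ≫ (cat X a b).hom = (cat X a b).hom ≫ g' := by
  induction hg with
  | last n =>
    refine ⟨sw (tp X (a + n)) X, Gen.last (a + n), ?_⟩
    rw [cat_succ, cat_succ, comp_whiskerRight, reassoc_of% (sw_assoc' (tp X a) (tp X n) X)]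
    simp only [Category.assoc]
    rw [sw_nat_left (X := X) (cat X a n).hom]
  | sgn n =>
    refine ⟨tp X (a + n) ◁ s, Gen.sgn (a + n), ?_⟩
    rw [cat_succ, associator_inv_naturality_right_assoc, Category.assoc, whisker_exchange]
  | lift n g hg ih =>
    obtain ⟨g', hg', h⟩ := ih
    refine ⟨g' ▷ X, Gen.lift _ _ hg', ?_⟩
    rw [cat_succ, associator_inv_naturality_middle_assoc, Category.assoc, ← comp_whiskerRight, h,
      comp_whiskerRight]

lemma gen_left {X : C} {s : X ⟶ X} {a : ℕ} (b : ℕ) {g : tp X a ⟶ tp X a} (hg : Gen s a g) :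
    ∃ g', Gen s (a + b) g' ∧ (g ▷ tp X b) ≫ (cat X a b).hom = (cat X a b).hom ≫ g' := by
  induction b with
  | zero => exact ⟨g, hg, rightUnitor_naturality g⟩
  | succ b ih =>
    obtain ⟨g', hg', h⟩ := ih
    refine ⟨g' ▷ X, Gen.lift _ _ hg', ?_⟩
    rw [cat_succ, associator_inv_naturality_left_assoc, Category.assoc, ← comp_whiskerRight, h,
      comp_whiskerRight]

end

section

variable {C : Type u} [Category.{v} C] [MonoidalCategory C] [SymmetricCategory C]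
  [Preadditive C] [Linear ℚ C] [MonoidalPreadditive C] [MonoidalLinear ℚ C]

lemma algebraMap_end (Y : C) (c : ℚ) :
    ((algebraMap ℚ (End Y) c : End Y) : Y ⟶ Y) = c • (𝟙 Y) := by
  rw [Algebra.algebraMap_eq_smul_one]
  rfl

/-- Conjugation with an isomorphism. -/
def cj {A B : C} (e : A ≅ B) : End A →ₐ[ℚ] End B where
  toFun x := en (e.inv ≫ (x : A ⟶ A) ≫ e.hom)
  map_one' := by
    change e.inv ≫ 𝟙 _ ≫ e.hom = 𝟙 _
    simp
  map_mul' x y := by
    change e.inv ≫ ((y : A ⟶ A) ≫ (x : A ⟶ A)) ≫ e.hom =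
      (e.inv ≫ (y : A ⟶ A) ≫ e.hom) ≫ (e.inv ≫ (x : A ⟶ A) ≫ e.hom)
    simp
  map_zero' := by
    change e.inv ≫ 0 ≫ e.hom = 0
    simp
  map_add' x y := by
    change e.inv ≫ ((x : A ⟶ A) + (y : A ⟶ A)) ≫ e.hom =
      e.inv ≫ (x : A ⟶ A) ≫ e.hom + e.inv ≫ (y : A ⟶ A) ≫ e.hom
    rw [Preadditive.add_comp, Preadditive.comp_add]
  commutes' c := by
    change e.inv ≫ ((algebraMap ℚ (End A) c : End A) : A ⟶ A) ≫ e.hom =
      ((algebraMap ℚ (End B) c : End B) : B ⟶ B)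
    rw [algebraMap_end, algebraMap_end, Linear.smul_comp, Linear.comp_smul, Category.id_comp,
      Iso.inv_hom_id]

/-- Tensoring with an object on the left. -/
def wl (Q : C) {A : C} : End A →ₐ[ℚ] End (Q ⊗ A) where
  toFun x := en (Q ◁ (x : A ⟶ A))
  map_one' := whiskerLeft_id _ _
  map_mul' x y := MonoidalCategory.whiskerLeft_comp _ _ _
  map_zero' := MonoidalPreadditive.whiskerLeft_zero
  map_add' x y := MonoidalPreadditive.whiskerLeft_add _ _
  commutes' c := by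
    change Q ◁ ((algebraMap ℚ (End A) c : End A) : A ⟶ A) =
      ((algebraMap ℚ (End (Q ⊗ A)) c : End (Q ⊗ A)) : Q ⊗ A ⟶ Q ⊗ A)
    rw [algebraMap_end, algebraMap_end, MonoidalLinear.whiskerLeft_smul, whiskerLeft_id]

/-- Tensoring with an object on the right. -/
def wr (Q : C) {A : C} : End A →ₐ[ℚ] End (A ⊗ Q) where
  toFun x := en ((x : A ⟶ A) ▷ Q)
  map_one' := id_whiskerRight _ _
  map_mul' x y := comp_whiskerRight _ _ _
  map_zero' := MonoidalPreadditive.zero_whiskerRight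
  map_add' x y := MonoidalPreadditive.add_whiskerRight _ _
  commutes' c := by
    change ((algebraMap ℚ (End A) c : End A) : A ⟶ A) ▷ Q =
      ((algebraMap ℚ (End (A ⊗ Q)) c : End (A ⊗ Q)) : A ⊗ Q ⟶ A ⊗ Q)
    rw [algebraMap_end, algebraMap_end, MonoidalLinear.smul_whiskerRight, id_whiskerRight]

lemma map_adjoin_le {A B : Type*} [Ring A] [Algebra ℚ A] [Ring B] [Algebra ℚ B] (f : A →ₐ[ℚ] B)
    {S : Set A} {T : Set B} (h : ∀ x ∈ S, f x ∈ Algebra.adjoin ℚ T) {x : A}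
    (hx : x ∈ Algebra.adjoin ℚ S) : f x ∈ Algebra.adjoin ℚ T := by
  have h1 : Algebra.adjoin ℚ S ≤ (Algebra.adjoin ℚ T).comap f := Algebra.adjoin_le h
  exact h1 hx

lemma nat_right {X : C} {s : X ⟶ X} (a : ℕ) {b : ℕ} {x : End (tp X b)} (hx : x ∈ Nat' s b) :
    cj (cat X a b) (wl (tp X a) x) ∈ Nat' s (a + b) := by
  refine map_adjoin_le ((cj (cat X a b)).comp (wl (tp X a))) (fun g hg => ?_) hx
  obtain ⟨g', hg', h⟩ := gen_right a hg
  have h1 : (cj (cat X a b)).comp (wl (tp X a)) g = g' := by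
    change (cat X a b).inv ≫ (tp X a ◁ (g : tp X b ⟶ tp X b)) ≫ (cat X a b).hom = g'
    rw [h, Iso.inv_hom_id_assoc]
  rw [h1]
  exact Algebra.subset_adjoin hg'

lemma nat_left {X : C} {s : X ⟶ X} {a : ℕ} (b : ℕ) {x : End (tp X a)} (hx : x ∈ Nat' s a) :
    cj (cat X a b) (wr (tp X b) x) ∈ Nat' s (a + b) := by
  refine map_adjoin_le ((cj (cat X a b)).comp (wr (tp X b))) (fun g hg => ?_) hx
  obtain ⟨g', hg', h⟩ := gen_left b hg
  have h1 : (cj (cat X a b)).comp (wr (tp X b)) g = g' := by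
    change (cat X a b).inv ≫ ((g : tp X a ⟶ tp X a) ▷ tp X b) ≫ (cat X a b).hom = g'
    rw [h, Iso.inv_hom_id_assoc]
  rw [h1]
  exact Algebra.subset_adjoin hg'

/-- The natural operators of `k` blocks of `n` letters. -/
def Bl {X : C} (s : X ⟶ X) (n k : ℕ) : Subalgebra ℚ (End (tp (tp X n) k)) :=
  (Nat' s (NN n k)).comap (cj (th X n k))

lemma mem_Bl {X : C} {s : X ⟶ X} {n k : ℕ} (x : tp (tp X n) k ⟶ tp (tp X n) k) :
    en x ∈ Bl s n k ↔ en ((th X n k).inv ≫ x ≫ (th X n k).hom) ∈ Nat' s (NN n k) := Iff.rfl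

lemma bl_right {X : C} {s : X ⟶ X} {n : ℕ} (k : ℕ) {y : tp X n ⟶ tp X n}
    (hy : en y ∈ Nat' s n) : en (X := tp (tp X n) (k + 1)) (tp (tp X n) k ◁ y) ∈ Bl s n (k + 1) := by
  rw [mem_Bl]
  have h1 := nat_right (NN n k) hy
  have h2 : (th X n (k + 1)).inv ≫ (tp (tp X n) k ◁ y) ≫ (th X n (k + 1)).hom =
      (cat X (NN n k) n).inv ≫ (tp X (NN n k) ◁ y) ≫ (cat X (NN n k) n).hom := by
    change ((cat X (NN n k) n).inv ≫ (th X n k).inv ▷ tp X n) ≫ (tp (tp X n) k ◁ y) ≫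
      ((th X n k).hom ▷ tp X n) ≫ (cat X (NN n k) n).hom = _
    simp only [Category.assoc]
    rw [whisker_exchange_assoc, ← comp_whiskerRight_assoc, Iso.inv_hom_id]
    simp
  rw [h2]
  exact h1

lemma bl_left {X : C} {s : X ⟶ X} {n : ℕ} {k : ℕ} {x : tp (tp X n) k ⟶ tp (tp X n) k}
    (hx : en x ∈ Bl s n k) : en (X := tp (tp X n) (k + 1)) (x ▷ tp X n) ∈ Bl s n (k + 1) := by
  rw [mem_Bl] at hx ⊢
  have h1 := nat_left n hx
  have h2 : (th X n (k + 1)).inv ≫ (x ▷ tp X n) ≫ (th X n (k + 1)).hom =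
      (cat X (NN n k) n).inv ≫ (((th X n k).inv ≫ x ≫ (th X n k).hom) ▷ tp X n) ≫
        (cat X (NN n k) n).hom := by
    change ((cat X (NN n k) n).inv ≫ (th X n k).inv ▷ tp X n) ≫ (x ▷ tp X n) ≫
      ((th X n k).hom ▷ tp X n) ≫ (cat X (NN n k) n).hom = _
    simp only [Category.assoc, comp_whiskerRight]
  rw [h2]
  exact h1

lemma bl_tensor {X : C} {s : X ⟶ X} {n : ℕ} {k : ℕ} {x : tp (tp X n) k ⟶ tp (tp X n) k}
    (hx : en x ∈ Bl s n k) {y : tp X n ⟶ tp X n} (hy : en y ∈ Nat' s n) :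
    en (X := tp (tp X n) (k + 1)) (x ⊗ₘ y) ∈ Bl s n (k + 1) := by
  have h1 := Subalgebra.mul_mem _ (bl_right k hy) (bl_left hx)
  have h2 : en (X := tp (tp X n) (k + 1)) (tp (tp X n) k ◁ y) *
      en (X := tp (tp X n) (k + 1)) (x ▷ tp X n) = en (X := tp (tp X n) (k + 1)) (x ⊗ₘ y) := by
    rw [End.mul_def]
    exact (MonoidalCategory.tensorHom_def x y).symm
  rwa [h2] at h1

lemma bl_tpm {X : C} {s : X ⟶ X} {n : ℕ} {y : tp X n ⟶ tp X n} (hy : en y ∈ Nat' s n) (k : ℕ) :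
    en (tpm y k) ∈ Bl s n k := by
  induction k with
  | zero => exact Subalgebra.one_mem _
  | succ k ih => exact bl_tensor ih hy

end

end Pool.Agent.K3h8.SF
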