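import Pool.Agent.K3h8.SF.PureMain
import Pool.Agent.K3h8.SF.Stm2

/-!
# Schur functors of objects of mixed parity: from a summand of the tensor power to the parts
-/

set_option autoImplicit false
set_option linter.unusedSectionVars false
set_option linter.unusedSimpArgs false
set_option backward.isDefEq.respectTransparency false
set_option backward.defeqAttrib.useBackward true

open CategoryTheory Limits MonoidalCategory
open Pool.Agent.Y112.SR Pool.Agent.Y112.KD Pool.Agent.Y112.SC Pool.Agent.R905 Pool.Agent.K3h8.KS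
open Pool.Agent.Y116.MT (tr)

namespace Pool.Agent.K3h8.SF

universe v u w

section

variable {C : Type u} [Category.{v} C] [MonoidalCategory C] [SymmetricCategory C]

lemma fl_succ {X : C} (m : ℕ) (g : X ⟶ X) : fl (m + 1) g = fl m g ▷ X := by
  have h1 : (kap X (m + 1)).inv = ((kap X m).inv ▷ X) ≫ (α_ X (tp X m) X).hom := rfl
  rw [fl, h1, kap_succ]
  change (((kap X m).inv ▷ X) ≫ (α_ X (tp X m) X).hom) ≫ (g ▷ (tp X m ⊗ X)) ≫
    ((α_ X (tp X m) X).inv ≫ (kap X m).hom ▷ X) = _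
  rw [Category.assoc, ← associator_naturality_left_assoc, Iso.hom_inv_id_assoc,
    ← comp_whiskerRight, ← comp_whiskerRight]
  rfl

lemma fl_zero {X : C} (g : X ⟶ X) : fl 0 g = tp X 0 ◁ g := by
  change ((λ_ X).hom ≫ (ρ_ X).inv) ≫ (g ▷ 𝟙_ C) ≫ ((ρ_ X).hom ≫ (λ_ X).inv) = 𝟙_ C ◁ g
  simp

lemma fl_gen {X : C} (s : X ⟶ X) (m : ℕ) : Gen s (m + 1) (fl m s) := by
  induction m with
  | zero => rw [fl_zero]; exact Gen.sgn 0
  | succ m ih => rw [fl_succ]; exact Gen.lift _ _ ih

end

section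

variable {C : Type u} [Category.{v} C] [MonoidalCategory C] [SymmetricCategory C]
  [Preadditive C] [Linear ℚ C] [MonoidalPreadditive C] [MonoidalLinear ℚ C]

lemma fl_add {X : C} (m : ℕ) (g g' : X ⟶ X) : fl m (g + g') = fl m g + fl m g' := by
  simp only [fl, MonoidalPreadditive.add_whiskerRight, Preadditive.add_comp,
    Preadditive.comp_add]

lemma fl_smul {X : C} (m : ℕ) (c : ℚ) (g : X ⟶ X) : fl m (c • g) = c • fl m g := by
  simp only [fl, MonoidalLinear.smul_whiskerRight, Linear.smul_comp, Linear.comp_smul]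

lemma fl_id {X : C} (m : ℕ) : fl m (𝟙 X) = 𝟙 _ := by
  rw [fl, id_whiskerRight, Category.id_comp, Iso.inv_hom_id]

lemma fx_comp {X : C} (m k : ℕ) (x y : tp X k ⟶ tp X k) :
    fx m k (x ≫ y) = fx m k x ≫ fx m k y := map_mul (fxA X m k) (en y) (en x)

lemma fx_tpm {X : C} (m k : ℕ) (g : X ⟶ X) : fx m k (tpm g k) = tpm (fl m g) k := by
  have h1 : zip X (tp X m) k ≫ (tpm g k ▷ tp (tp X m) k) ≫ unzip X (tp X m) k =
      tpm (g ▷ tp X m) k := by
    rw [← reassoc_of% (zip_nat_left (B := tp X m) g k), zip_unzip, Category.comp_id]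
  have h2 : fx m k (tpm g k) = tpm (kap X m).inv k ≫ (zip X (tp X m) k ≫
      (tpm g k ▷ tp (tp X m) k) ≫ unzip X (tp X m) k) ≫ tpm (kap X m).hom k := by
    rw [fx]
    simp only [Category.assoc]
  rw [h2, h1, tpm_comp, tpm_comp]
  rfl

end

section

variable {C : Type u} [Category.{v} C] [Preadditive C] [Linear ℚ C] [MonoidalCategory C]
  [MonoidalPreadditive C] [MonoidalLinear ℚ C] [SymmetricCategory C] [RightRigidCategory C]
  [IsIdempotentComplete C] {K : Type w} [Field K] (R : SuperRealisation C K)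

lemma map_pt1 {X : C} : ∀ (m : ℕ) (y : tp X (m + 1) ⟶ tp X (m + 1)),
    R.H.map (pt1 m y) = PTn R X m (R.H.map y) := by
  intro m
  induction m with
  | zero => exact fun y => rfl
  | succ m ih =>
    intro y
    have h1 := ih (ptr y)
    rw [← PT_map] at h1
    exact h1

include R in
/-- **The main step for objects of mixed parity.** -/
theorem schur_mixed (hU : UnitQ C) {X : C} {s : X ⟶ X} (hs : s ≫ s = 𝟙 X)
    (hHs : R.H.map s = R.par X) {d : ℚ} (hd : d = 1 ∨ d = -1) {E : C} (iE : E ⟶ X) (rE : X ⟶ E)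
    (hE : iE ≫ rE = 𝟙 E) (hE' : rE ≫ iE = (2⁻¹ : ℚ) • (𝟙 X + d • s)) {T : C} (m : ℕ)
    (i : T ⟶ tp X (m + 1)) (r : tp X (m + 1) ⟶ T) (hir : i ≫ r = 𝟙 T)
    (hri : en (r ≫ i) ∈ Nat' s (m + 1)) (hT : ∀ k, HomNil R (tp T k))
    (ht : LinearMap.trace K (R.H.obj (tp X (m + 1)))
      (up R X (𝟙 _ + (d : K) • R.par (tp X 1)) m ≫ R.H.map (r ≫ i) ≫
        R.par (tp X (m + 1))).hom ≠ 0) :
    ∃ k, asym (-d) E k = 0 := by
  have hK := R_charZero R
  have hdd : d * d = 1 := by rcases hd with rfl | rfl <;> norm_num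
  have hddK : (d : K) * d = 1 := by exact_mod_cast hdd
  -- the letter
  have hes : iE ≫ s = d • iE := by
    have h1 : iE ≫ (rE ≫ iE) = iE := by rw [reassoc_of% hE]
    rw [hE', Linear.comp_smul, Preadditive.comp_add, Category.comp_id, Linear.comp_smul] at h1
    have h2 : iE + d • (iE ≫ s) = (2 : ℚ) • iE := by
      have h3 := congrArg (fun z => (2 : ℚ) • z) h1
      simp only [smul_smul] at h3
      rw [show (2 : ℚ) * 2⁻¹ = 1 by norm_num, one_smul] at h3
      exact h3
    have h3 : d • (iE ≫ s) = iE := by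
      have h4 : (2 : ℚ) • iE = iE + iE := two_smul ℚ iE
      rw [h4] at h2
      exact add_left_cancel h2
    calc iE ≫ s = (d * d) • (iE ≫ s) := by rw [hdd, one_smul]
      _ = d • (d • (iE ≫ s)) := by rw [smul_smul]
      _ = d • iE := by rw [h3]
  have hEpar : R.par E = (d : K) • 𝟙 _ := by
    have h1 : R.H.map iE ≫ R.H.map rE = 𝟙 _ := by
      rw [← Functor.map_comp, hE, CategoryTheory.Functor.map_id]
    have h2 : R.par E = R.par E ≫ R.H.map iE ≫ R.H.map rE := by rw [h1, Category.comp_id]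
    rw [h2, ← Category.assoc, ← R.par_natural, ← hHs, ← Functor.map_comp, hes, R_smul,
      Linear.smul_comp, h1]
  set e : X ⟶ X := rE ≫ iE with he
  have hse : s ≫ e = d • e := by
    have h1 : (s ≫ e : X ⟶ X) = e ≫ s := by
      rw [hE', Linear.comp_smul, Linear.smul_comp, Preadditive.comp_add, Preadditive.add_comp,
        Linear.comp_smul, Linear.smul_comp, Category.comp_id, Category.id_comp]
    rw [h1, he, Category.assoc, hes, Linear.comp_smul]
  obtain ⟨k, hk⟩ := map_asym_zero R hU hdd hEpar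
  refine ⟨k, ?_⟩
  -- the operator on the first letters
  have hanat : ∀ {Y Z : C} (f : Y ⟶ Z), tpm f k ≫ asym (-d) Z k = asym (-d) Y k ≫ tpm f k :=
    fun f => asym_nat f k
  set a : tp X k ⟶ tp X k := tpm e k ≫ asym (-d) X k with ha
  have ha' : a = tpm rE k ≫ asym (-d) E k ≫ tpm iE k := by
    rw [ha, he, ← tpm_comp, Category.assoc, hanat iE]
  have hHa : R.H.map a = 0 := by
    rw [ha', Functor.map_comp, Functor.map_comp, hk, zero_comp, comp_zero]
  set p : tp X (m + 1) ⟶ tp X (m + 1) := r ≫ i with hp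
  have hel : en (fl m e) ∈ Nat' s (m + 1) := by
    have h1 : en (fl m e) = (2⁻¹ : ℚ) • ((1 : End (tp X (m + 1))) + d • en (fl m s)) := by
      rw [hE', fl_smul, fl_add, fl_id, fl_smul]
      rfl
    have h2 : en (fl m s) ∈ Nat' s (m + 1) := Algebra.subset_adjoin (fl_gen s m)
    rw [h1]
    exact Subalgebra.smul_mem (Nat' s (m + 1)) (Subalgebra.add_mem (Nat' s (m + 1))
      (Subalgebra.one_mem (Nat' s (m + 1))) (Subalgebra.smul_mem (Nat' s (m + 1)) h2 _)) _
  have haB : en (fx m k a) ∈ Bl s (m + 1) k := by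
    rw [ha, fx_comp, fx_tpm]
    exact Subalgebra.mul_mem _ (fx_adjoin_mem (Pool.Agent.K3h12.SF.t_XI1 C)
      (Pool.Agent.K3h94.SF.t_XI2 C) (Pool.Agent.K3h94.SF.t_GAM C) s m
      (asym_mem_adjoin (-d) X k)) (bl_tpm hel k)
  have hjq : tpm i k ≫ tpm r k = 𝟙 _ := by rw [tpm_comp, hir, tpm_id]
  have hqj : tpm r k ≫ tpm i k = tpm p k := by rw [tpm_comp]
  have h1 : tpm p k ≫ fx m k a = 0 := by
    have e1 := lemw R (Bl s (m + 1) k)
      (fun w hw => bl_regular (Pool.Agent.K3h43.SF.t_MONC1 C) hs (m + 1) k hw)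
      (tpm r k) (tpm i k) hjq (by rw [hqj]; exact bl_tpm hri k) (f := fx m k a) haB (hT k)
      (by rw [Functor.map_comp, map_fx_zero R m k a hHa, comp_zero])
    rwa [hqj] at e1
  have h2 : Blk (𝟙 (tp X k)) a ((kap X m).hom ≫ p ≫ (kap X m).inv) := by
    unfold Blk
    rw [id_whiskerRight, Category.id_comp, ← tpm_comp, ← tpm_comp]
    have e2 : tpm (kap X m).hom k ≫ tpm (kap X m).inv k = 𝟙 _ := by
      rw [tpm_comp, Iso.hom_inv_id, tpm_id]
    have e3 := congrArg (fun z => unzip X (tp X m) k ≫ tpm (kap X m).hom k ≫ z ≫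
      tpm (kap X m).inv k ≫ zip X (tp X m) k) h1
    simp only [fx, Category.assoc, reassoc_of% e2, zero_comp, comp_zero, unzip_zip,
      Category.comp_id] at e3
    simp only [Category.assoc]
    exact e3
  have h3 := Pool.Agent.K3h33.SF.t_BC X k m a p h2
  -- the shape of the partial trace
  have hsT : tr s = trq hU X (s : End X) • 𝟙 _ := trq_spec hU (s : End X)
  have h4 : en (pt1 m p) ∈ Nat' s 1 :=
    pt1_mem (Pool.Agent.K3h43.SF.t_MONC2 C) hs (tr_one hU X) hsT m p hri
  obtain ⟨α, β, h5⟩ := Pool.Agent.K3h43.SF.t_MONC3 C X s hs (pt1 m p) h4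
  have h7 : (λ_ X).inv ≫ pt1 m p ≫ (λ_ X).hom = α • 𝟙 X + β • s := by
    have e1 : (λ_ X).inv ≫ (𝟙 (tp X 1)) ≫ (λ_ X).hom = 𝟙 X := by
      rw [Category.id_comp, Iso.inv_hom_id]
    have e2 : (λ_ X).inv ≫ (tp X 0 ◁ s) ≫ (λ_ X).hom = s := by
      change (λ_ X).inv ≫ (𝟙_ C ◁ s) ≫ (λ_ X).hom = s
      simp
    rw [h5, Preadditive.add_comp, Preadditive.comp_add, Linear.smul_comp, Linear.comp_smul,
      Linear.smul_comp, Linear.comp_smul, e1, e2]
  have h8 : α + d * β ≠ 0 := by
    intro h8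
    apply ht
    have e1 : R.H.map (tp X 0 ◁ s) = R.par (tp X 1) := by
      have f1 : R.H.map (tp X 0 ◁ s) = bx R (𝟙 _) (R.H.map s) := by
        rw [← CategoryTheory.Functor.map_id, bx_map, id_tensorHom]
      have f2 : R.par (tp X 0) = 𝟙 _ := R.par_unit
      rw [f1, hHs, ← f2]
      exact bx_par R _ _
    have e2 : PTn R X m (R.H.map p) = (α : K) • 𝟙 _ + (β : K) • R.par (tp X 1) := by
      rw [← map_pt1, h5, Functor.map_add, R_smul, R_smul, e1, CategoryTheory.Functor.map_id]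
    have e3 := trace_PTn R m (𝟙 _ + (d : K) • R.par (tp X 1)) (R.H.map p)
    rw [← e3, e2]
    have e4 : (𝟙 _ + (d : K) • R.par (tp X 1)) ≫ ((α : K) • 𝟙 _ + (β : K) • R.par (tp X 1)) ≫
        R.par (tp X 1) = ((α : K) + d * β) • (R.par (tp X 1) + (d : K) • 𝟙 _) := by
      simp only [Preadditive.add_comp, Preadditive.comp_add, Linear.smul_comp, Linear.comp_smul,
        Category.id_comp, Category.comp_id, R.par_sq, smul_add, smul_smul]
      have g1 : (d : K) * (β : K) * d = β := by linear_combination (β : K) * hddK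
      have g2 : ((α : K) + d * β) * d = α * d + β := by linear_combination (β : K) * hddK
      rw [g2]
      module
    rw [e4]
    have e5 : (α : K) + d * β = 0 := by exact_mod_cast h8
    rw [e5, zero_smul, ModuleCat.hom_zero, map_zero]
  rw [h7] at h3
  have h9 : tpm (α • 𝟙 X + β • s) k ≫ a = (α + d * β) ^ k • a := by
    have e1 : (α • 𝟙 X + β • s) ≫ e = (α + d * β) • e := by
      rw [Preadditive.add_comp, Linear.smul_comp, Linear.smul_comp, Category.id_comp, hse,
        smul_smul, ← add_smul, mul_comm β d]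
    rw [ha, ← Category.assoc, tpm_comp, e1, tpm_smul, Linear.smul_comp]
  rw [h9] at h3
  have h10 : a = 0 := (smul_eq_zero.1 h3).resolve_left (pow_ne_zero k h8)
  have h11 : asym (-d) E k = tpm iE k ≫ a ≫ tpm rE k := by
    have e1 : tpm iE k ≫ tpm rE k = 𝟙 _ := by rw [tpm_comp, hE, tpm_id]
    rw [ha']
    simp only [Category.assoc]
    rw [reassoc_of% e1, e1, Category.comp_id]
  rw [h11, h10]
  simp

end

end Pool.Agent.K3h8.SF
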