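import Pool.Agent.K3h8.SF.Parts

/-!
# Nilpotence descends from Schur functors
-/

set_option autoImplicit false
set_option linter.unusedSectionVars false
set_option linter.unusedSimpArgs false
set_option backward.isDefEq.respectTransparency false
set_option backward.defeqAttrib.useBackward true

open CategoryTheory Limits MonoidalCategory
open Pool.Agent.Y112.SR Pool.Agent.Y112.KD Pool.Agent.Y112.SC Pool.Agent.R905 Pool.Agent.K3h8.KS
open Pool.Agent.Y116.MT (tr)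

namespace Pool.Agent.K3h8.SF

universe v u w

section

variable {C : Type u} [Category.{v} C] [Preadditive C] [Linear ℚ C] [MonoidalCategory C]
  [MonoidalPreadditive C] [MonoidalLinear ℚ C] [SymmetricCategory C] [RightRigidCategory C]

lemma pt1_zero {X : C} : ∀ m : ℕ, pt1 m (0 : tp X (m + 1) ⟶ tp X (m + 1)) = 0 := by
  intro m
  induction m with
  | zero => rfl
  | succ m ih =>
    have h2 : ptr (0 : tp X (m + 1) ⊗ X ⟶ tp X (m + 1) ⊗ X) = 0 :=
      (ptrL (tp X (m + 1)) X).map_zero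
    have h1 : pt1 (m + 1) (0 : tp X (m + 2) ⟶ tp X (m + 2)) =
        pt1 m (ptr (0 : tp X (m + 1) ⊗ X ⟶ tp X (m + 1) ⊗ X)) := rfl
    rw [h1, h2, ih]

/-- The partial trace, as an endomorphism of the object. -/
def pq {X : C} (m : ℕ) (w : tp X (m + 1) ⟶ tp X (m + 1)) : X ⟶ X :=
  (λ_ X).inv ≫ pt1 m w ≫ (λ_ X).hom

lemma pq_fl (hP : PFs C) {X : C} (m : ℕ) (w : tp X (m + 1) ⟶ tp X (m + 1)) (g : X ⟶ X) :
    pq m w ≫ g = pq m (w ≫ fl m g) := by
  rw [pq, pq, hP X m w g]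
  change _ = (λ_ X).inv ≫ (pt1 m w ≫ (𝟙_ C ◁ g)) ≫ (λ_ X).hom
  simp only [Category.assoc]
  rw [leftUnitor_naturality]

lemma pq_kill (hP : PFs C) {X : C} (m : ℕ) (w p : tp X (m + 1) ⟶ tp X (m + 1)) (g : X ⟶ X)
    (h : p ≫ fl m g = 0) : pq m (w ≫ p) ≫ g = 0 := by
  rw [pq_fl hP, Category.assoc, h, comp_zero, pq, pt1_zero]
  simp

variable {K : Type w} [Field K] (R : SuperRealisation C K)

lemma par_lin {X : C} {d : ℚ} (hd : d * d = 1) (α β : ℚ) :
    (𝟙 (R.H.obj X) + (d : K) • R.par X) ≫ ((α : K) • 𝟙 _ + (β : K) • R.par X) =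
      ((α : K) + d * β) • (𝟙 (R.H.obj X) + (d : K) • R.par X) := by
  have hK := R_charZero R
  have hddK : (d : K) * d = 1 := by exact_mod_cast hd
  simp only [Preadditive.add_comp, Preadditive.comp_add, Linear.smul_comp, Linear.comp_smul,
    Category.id_comp, Category.comp_id, R.par_sq, smul_add, smul_smul]
  have g2 : ((α : K) + d * β) * d = α * d + β := by linear_combination (β : K) * hddK
  rw [g2]
  module

/-- Operators which kill the homologically trivial endomorphisms and cover one parity. -/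
lemma exists_zd (hN : N1s.{v, u, w} C) (hP : PFs C) (hHL : HLs.{v, u, w} C)
    (hTRC : TRC.{v, u, w} C) (hU : UnitQ C) {X T : C} {m : ℕ} (i : T ⟶ tp X (m + 1))
    (r : tp X (m + 1) ⟶ T) (hs : Spl i r) (h0 : ¬ IsZero (R.H.obj T)) (hT : HomNil R T)
    {g : X ⟶ X} (hg : R.H.map g = R.par X) (d : ℚ) (hd : d = 1 ∨ d = -1) :
    ∃ z : X ⟶ X, R.H.map z = (2⁻¹ : K) • (𝟙 _ + (d : K) • R.par X) ∧
      ∀ f : End X, R.H.map (f : X ⟶ X) = 0 → ∃ L : ℕ, z ≫ ((f ^ L : End X) : X ⟶ X) = 0 := by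
  have hK := R_charZero R
  have hdd : d * d = 1 := by rcases hd with rfl | rfl <;> norm_num
  by_cases hp : R.par X = ((-d : ℚ) : K) • 𝟙 _
  · refine ⟨0, ?_, fun f _ => ⟨0, zero_comp⟩⟩
    have e1 : (d : K) * ((-d : ℚ) : K) = -1 := by
      have : d * -d = -1 := by linear_combination -hdd
      exact_mod_cast this
    rw [Functor.map_zero, hp, smul_smul, e1, neg_smul, one_smul, add_neg_cancel, smul_zero]
  · obtain ⟨i₁, r₁, hs₁, ht⟩ := hHL K R hU X T m i r hs h0 d hd hp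
    obtain ⟨α, β, hαβ, hy⟩ := hTRC K R X T m i₁ r₁ hs₁ d hd ht g hg
    have hy' : R.H.map (pq m (tpm g (m + 1) ≫ r₁ ≫ i₁)) = (α : K) • 𝟙 _ + (β : K) • R.par X := hy
    refine ⟨(2 * (α + d * β))⁻¹ • ((𝟙 X + d • g) ≫ pq m (tpm g (m + 1) ≫ r₁ ≫ i₁)), ?_, ?_⟩
    · rw [R_smul, Functor.map_comp, Functor.map_add, R_smul, hg, CategoryTheory.Functor.map_id,
        hy', par_lin R hdd, smul_smul]
      congr 1
      have e1 : ((α : K) + d * β) ≠ 0 := by exact_mod_cast hαβ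
      push_cast
      field_simp
    · intro f hf
      obtain ⟨L, hL⟩ := hN K R X T m i₁ r₁ hs₁ hT f hf
      refine ⟨L, ?_⟩
      rw [Linear.smul_comp, Category.assoc, pq_kill hP m _ _ _ hL, comp_zero, smul_zero]

variable [IsIdempotentComplete C]

include R in
/-- **Nilpotence descends from Schur functors.** -/
theorem homNil_of_schur (hN : N1s.{v, u, w} C) (hP : PFs C) (hHL : HLs.{v, u, w} C)
    (hTRC : TRC.{v, u, w} C) (hL : LIFT.{v, u, w} C) (hU : UnitQ C) {X T : C} {m : ℕ}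
    (i : T ⟶ tp X (m + 1)) (r : tp X (m + 1) ⟶ T) (hs : Spl i r)
    (h0 : ¬ IsZero (R.H.obj T)) (hT : HomNil R T) (hC : R.CPlus X) : HomNil R X := by
  have hK := R_charZero R
  obtain ⟨g, hg⟩ := (cplus_iff R X).1 hC
  obtain ⟨z, hz, hzk⟩ := exists_zd R hN hP hHL hTRC hU i r hs h0 hT hg 1 (Or.inl rfl)
  obtain ⟨z', hz', hzk'⟩ := exists_zd R hN hP hHL hTRC hU i r hs h0 hT hg (-1) (Or.inr rfl)
  obtain ⟨e, hee, hHe, hfe, hse⟩ := hL K R X hC (z + z') (by
    rw [Functor.map_add, hz, hz', ← smul_add]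
    push_cast
    have e1 : (𝟙 (R.H.obj X) + (1 : K) • R.par X + (𝟙 (R.H.obj X) + (-1 : K) • R.par X)) =
        (2 : K) • 𝟙 _ := by module
    rw [e1, smul_smul, inv_mul_cancel₀ two_ne_zero, one_smul]) (by
    intro f hf
    obtain ⟨L, hL⟩ := hzk f hf
    obtain ⟨L', hL'⟩ := hzk' f hf
    refine ⟨L + L', ?_⟩
    have e1 : ((f ^ (L + L') : End X) : X ⟶ X) =
        ((f ^ L' : End X) : X ⟶ X) ≫ ((f ^ L : End X) : X ⟶ X) := by
      rw [pow_add, End.mul_def]
    have e2 : ((f ^ (L + L') : End X) : X ⟶ X) =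
        ((f ^ L : End X) : X ⟶ X) ≫ ((f ^ L' : End X) : X ⟶ X) := by
      rw [add_comm L L', pow_add, End.mul_def]
    rw [Preadditive.add_comp]
    nth_rewrite 1 [e2]
    rw [e1, reassoc_of% hL, reassoc_of% hL', zero_comp, zero_comp, add_zero])
  -- some parity occurs
  obtain ⟨d, hd, hp⟩ : ∃ d : ℚ, (d = 1 ∨ d = -1) ∧ R.par X ≠ ((-d : ℚ) : K) • 𝟙 _ := by
    by_contra hcon
    push Not at hcon
    have h1 := hcon 1 (Or.inl rfl)
    have h2 := hcon (-1) (Or.inr rfl)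
    rw [h1] at h2
    have h3 : 𝟙 (R.H.obj X) = 0 := by
      have h4 : (2 : K) • 𝟙 (R.H.obj X) = 0 := by
        have e1 : (2 : K) • 𝟙 (R.H.obj X) = ((-(-1) : ℚ) : K) • 𝟙 (R.H.obj X) -
            ((-1 : ℚ) : K) • 𝟙 (R.H.obj X) := by
          push_cast
          module
        rw [e1, h2, sub_self]
      exact (smul_eq_zero.1 h4).resolve_left two_ne_zero
    apply h0
    rw [IsZero.iff_id_eq_zero]
    have h5 : 𝟙 (R.H.obj (tp X (m + 1))) = 0 := by
      have e1 : 𝟙 (R.H.obj (tp X (m + 1))) = bx R (𝟙 (R.H.obj (tp X m))) (𝟙 (R.H.obj X)) :=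
        (bx_one R (tp X m) X).symm
      rw [e1, h3, bx_zero_right]
    have h6 : 𝟙 (R.H.obj T) = R.H.map i ≫ 𝟙 (R.H.obj (tp X (m + 1))) ≫ R.H.map r := by
      rw [Category.id_comp, ← Functor.map_comp, hs.1, CategoryTheory.Functor.map_id]
    rw [h6, h5, zero_comp, comp_zero]
  have hdd : d * d = 1 := by rcases hd with rfl | rfl <;> norm_num
  obtain ⟨s, hss, hHs, hse'⟩ := hse d hd
  obtain ⟨i₁, r₁, hs₁, ht⟩ := hHL K R hU X T m i r hs h0 d hd hp
  obtain ⟨α, β, hαβ, hy⟩ := hTRC K R X T m i₁ r₁ hs₁ d hd ht s hHs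
  have hy' : R.H.map (pq m (tpm s (m + 1) ≫ r₁ ≫ i₁)) = (α : K) • 𝟙 _ + (β : K) • R.par X := hy
  -- the shape of the partial trace
  have hsT : tr s = trq hU X (s : End X) • 𝟙 _ := trq_spec hU (s : End X)
  have hmem : en (tpm s (m + 1) ≫ r₁ ≫ i₁) ∈ Nat' s (m + 1) :=
    Subalgebra.mul_mem _ (adjoin_le_nat s hs₁.2) (tpm_mem s (m + 1))
  have h4 : en (pt1 m (tpm s (m + 1) ≫ r₁ ≫ i₁)) ∈ Nat' s 1 :=
    pt1_mem (Pool.Agent.K3h43.SF.t_MONC2 C) hss (tr_one hU X) hsT m _ hmem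
  obtain ⟨α', β', h5⟩ := Pool.Agent.K3h43.SF.t_MONC3 C X s hss
    (pt1 m (tpm s (m + 1) ≫ r₁ ≫ i₁)) h4
  have h7 : pq m (tpm s (m + 1) ≫ r₁ ≫ i₁) = α' • 𝟙 X + β' • s := by
    have e1 : (λ_ X).inv ≫ (𝟙 (tp X 1)) ≫ (λ_ X).hom = 𝟙 X := by
      rw [Category.id_comp, Iso.inv_hom_id]
    have e2 : (λ_ X).inv ≫ (tp X 0 ◁ s) ≫ (λ_ X).hom = s := by
      change (λ_ X).inv ≫ (𝟙_ C ◁ s) ≫ (λ_ X).hom = s
      simp
    rw [pq, h5, Preadditive.add_comp, Preadditive.comp_add, Linear.smul_comp, Linear.comp_smul,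
      Linear.smul_comp, Linear.comp_smul, e1, e2]
  have h8 : α' + d * β' ≠ 0 := by
    intro h8
    have e1 : R.H.map (pq m (tpm s (m + 1) ≫ r₁ ≫ i₁)) =
        (α' : K) • 𝟙 _ + (β' : K) • R.par X := by
      rw [h7, Functor.map_add, R_smul, R_smul, hHs, CategoryTheory.Functor.map_id]
    have e2 := par_lin R hdd α β (X := X)
    have e3 := par_lin R hdd α' β' (X := X)
    rw [← hy', e1, e3] at e2
    have e4 : (α' : K) + d * β' = 0 := by exact_mod_cast h8
    rw [e4, zero_smul] at e2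
    have e5 : (α : K) + d * β ≠ 0 := by exact_mod_cast hαβ
    have e6 := (smul_eq_zero.1 e2.symm).resolve_left e5
    apply hp
    have hddK : (d : K) * d = 1 := by exact_mod_cast hdd
    have e7 : (d : K) • (𝟙 (R.H.obj X) + (d : K) • R.par X) = 0 := by rw [e6, smul_zero]
    rw [smul_add, smul_smul, hddK, one_smul] at e7
    push_cast
    rw [neg_smul]
    exact (neg_eq_of_add_eq_zero_right e7).symm
  -- `e` vanishes
  have he0 : e = 0 := by
    obtain ⟨L, hL'⟩ := hN K R X T m i₁ r₁ hs₁ hT (en e) hHe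
    have h9 := pq_kill hP m (tpm s (m + 1)) (r₁ ≫ i₁) _ hL'
    have hpow : ∀ n : ℕ, ((en e ^ n : End X) : X ⟶ X) ≫ e = e := by
      intro n
      induction n with
      | zero => exact Category.id_comp e
      | succ n ih =>
        rw [pow_succ, End.mul_def]
        change (e ≫ ((en e ^ n : End X) : X ⟶ X)) ≫ e = e
        rw [Category.assoc, ih, hee]
    have h10 : pq m (tpm s (m + 1) ≫ r₁ ≫ i₁) ≫ e = 0 := by
      rw [← hpow L, reassoc_of% h9, zero_comp]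
    rw [h7, Preadditive.add_comp, Linear.smul_comp, Linear.smul_comp, Category.id_comp, hse',
      smul_smul, ← add_smul, mul_comm β' d] at h10
    exact (smul_eq_zero.1 h10).resolve_left h8
  intro f hf
  obtain ⟨L, hL'⟩ := hfe f hf
  refine ⟨L, ?_⟩
  rw [he0, zero_comp] at hL'
  exact hL'

end

end Pool.Agent.K3h8.SF
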