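import Pool.Agent.K3h8.SF.Mixed

/-!
# Schur functors of objects of mixed parity: the even and the odd part
-/

set_option autoImplicit false
set_option linter.unusedSectionVars false
set_option linter.unusedSimpArgs false
set_option backward.isDefEq.respectTransparency false
set_option backward.defeqAttrib.useBackward true

open CategoryTheory Limits MonoidalCategory
open Pool.Agent.Y112.SR Pool.Agent.Y112.KD Pool.Agent.Y112.SC Pool.Agent.R905 Pool.Agent.K3h8.KS
open Pool.Agent.Y116.MT (tr)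

namespace Pool.Agent.K3h8.SF

universe v u w

section

variable {C : Type u} [Category.{v} C] [MonoidalCategory C] [SymmetricCategory C]

lemma tpm_swap {X : C} (f : X ⟶ X) {n : ℕ} {s : tp X n ⟶ tp X n} (hs : IsSwap X n s) :
    tpm f n ≫ s = s ≫ tpm f n := by
  induction hs with
  | last n => exact sw_nat (tpm f n) f f
  | lift n s hs ih =>
    change (tpm f n ⊗ₘ f) ≫ (s ▷ X) = (s ▷ X) ≫ (tpm f n ⊗ₘ f)
    rw [← tensorHom_id, tensorHom_comp_tensorHom, tensorHom_comp_tensorHom, ih, Category.id_comp,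
      Category.comp_id]

end

section

variable {C : Type u} [Category.{v} C] [MonoidalCategory C] [SymmetricCategory C]
  [Preadditive C] [Linear ℚ C] [MonoidalPreadditive C] [MonoidalLinear ℚ C]

lemma tpm_adjoin {X : C} (f : X ⟶ X) {n : ℕ} {x : End (tp X n)}
    (hx : x ∈ Algebra.adjoin ℚ {s : End (tp X n) | IsSwap X n s}) :
    tpm f n ≫ (x : tp X n ⟶ tp X n) = (x : tp X n ⟶ tp X n) ≫ tpm f n := by
  have h1 : Algebra.adjoin ℚ {s : End (tp X n) | IsSwap X n s} ≤
      Subalgebra.centralizer ℚ {en (tpm f n)} := by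
    refine Algebra.adjoin_le fun s hs => ?_
    rw [SetLike.mem_coe, Subalgebra.mem_centralizer_iff]
    rintro g hg
    rw [Set.mem_singleton_iff.1 hg]
    exact (tpm_swap f hs).symm
  exact ((Subalgebra.mem_centralizer_iff ℚ).1 (h1 hx) _ rfl).symm

lemma nat_whisker {X : C} {s : X ⟶ X} {n : ℕ} {x : End (tp X n)} (hx : x ∈ Nat' s n) :
    en (X := tp X (n + 1)) ((x : tp X n ⟶ tp X n) ▷ X) ∈ Nat' s (n + 1) := by
  have h1 : Nat' s n ≤ (Nat' s (n + 1)).comap (wr X (A := tp X n)) :=
    Algebra.adjoin_le fun g hg => Algebra.subset_adjoin (Gen.lift n g hg)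
  exact h1 hx

lemma tpm_mem {X : C} (s : X ⟶ X) (n : ℕ) : en (tpm s n) ∈ Nat' s n := by
  induction n with
  | zero => exact Subalgebra.one_mem _
  | succ n ih =>
    have h1 : en (X := tp X (n + 1)) (tp X n ◁ s) ∈ Nat' s (n + 1) :=
      Algebra.subset_adjoin (Gen.sgn n)
    have h2 : en (tpm s (n + 1)) = en (X := tp X (n + 1)) (tp X n ◁ s) *
        en (X := tp X (n + 1)) (tpm s n ▷ X) := MonoidalCategory.tensorHom_def _ _
    rw [h2]
    exact Subalgebra.mul_mem _ h1 (nat_whisker ih)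

end

section

variable {C : Type u} [Category.{v} C] [Preadditive C] [Linear ℚ C] [MonoidalCategory C]
  [MonoidalPreadditive C] [MonoidalLinear ℚ C] [SymmetricCategory C] [RightRigidCategory C]
  {K : Type w} [Field K] (R : SuperRealisation C K)

lemma map_tpm_par {X : C} {s : X ⟶ X} (hs : R.H.map s = R.par X) (n : ℕ) :
    R.H.map (tpm s n) = R.par (tp X n) := by
  induction n with
  | zero =>
    have h : R.par (tp X 0) = 𝟙 _ := R.par_unit
    rw [h]
    exact CategoryTheory.Functor.map_id _ _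
  | succ n ih =>
    have h1 : R.H.map (tpm s (n + 1)) = bx R (R.H.map (tpm s n)) (R.H.map s) :=
      (bx_map R (tpm s n) s).symm
    rw [h1, ih, hs]
    exact bx_par R _ _

variable [IsIdempotentComplete C]

include R in
/-- The even and the odd part of an object with a Kimura finite Schur functor. -/
theorem part_of_schur (hHL : HLs.{v, u, w} C) (hU : UnitQ C) {M T : C} {m : ℕ}
    (i : T ⟶ tp M (m + 1)) (r : tp M (m + 1) ⟶ T) (hs : Spl i r) (h0 : ¬ IsZero (R.H.obj T))
    (h : IsKimuraFinite T) {s : M ⟶ M} (hss : s ≫ s = 𝟙 M) (hHs : R.H.map s = R.par M)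
    (hM : HomNil R M) {d : ℚ} (hd : d = 1 ∨ d = -1) {E : C} (iE : E ⟶ M) (rE : M ⟶ E)
    (hE : iE ≫ rE = 𝟙 E) (hE' : rE ≫ iE = (2⁻¹ : ℚ) • (𝟙 M + d • s)) :
    ∃ k, asym (-d) E k = 0 := by
  have hK := R_charZero R
  have hdd : d * d = 1 := by rcases hd with rfl | rfl <;> norm_num
  by_cases hp : R.par M = ((-d : ℚ) : K) • 𝟙 _
  · refine ⟨1, ?_⟩
    have h1 : R.H.map (rE ≫ iE) = 0 := by
      rw [hE', R_smul, Functor.map_add, R_smul, hHs, hp, smul_smul, ← Rat.cast_mul,
        CategoryTheory.Functor.map_id]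
      have e1 : d * -d = -1 := by linear_combination -hdd
      rw [e1]
      have e2 : (𝟙 (R.H.obj M) + ((-1 : ℚ) : K) • 𝟙 (R.H.obj M)) = 0 := by
        push_cast
        rw [neg_smul, one_smul, add_neg_cancel]
      rw [e2, smul_zero]
    have h2 : R.H.map (𝟙 E) = 0 := by
      have e1 : 𝟙 E = iE ≫ (rE ≫ iE) ≫ rE := by
        rw [Category.assoc, hE, Category.comp_id, hE]
      rw [e1, Functor.map_comp, Functor.map_comp, h1, zero_comp, comp_zero]
    obtain ⟨N, hN⟩ := (hM.retract iE rE hE) 1 h2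
    rw [one_pow] at hN
    have h3 : 𝟙 E = 0 := hN
    have h4 : 𝟙 (tp E 1) = tp E 0 ◁ 𝟙 E := (MonoidalCategory.whiskerLeft_id _ _).symm
    rw [asym_one, h4, h3, MonoidalPreadditive.whiskerLeft_zero]
  · obtain ⟨i₁, r₁, ⟨hir, hri⟩, ht⟩ := hHL K R hU M T m i r hs h0 d hd hp
    set p : tp M (m + 1) ⟶ tp M (m + 1) := r₁ ≫ i₁ with hpdef
    set W : tp M (m + 1) ⟶ tp M (m + 1) := tpm s (m + 1) with hW
    have hpp : p ≫ p = p := by rw [hpdef, Category.assoc, reassoc_of% hir]
    have hWW : W ≫ W = 𝟙 _ := by rw [hW, tpm_comp, hss, tpm_id]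
    have hWp : W ≫ p = p ≫ W := tpm_adjoin s hri
    have hHW : R.H.map W = R.par (tp M (m + 1)) := map_tpm_par R hHs (m + 1)
    have key : ∀ κ : ℚ, (κ = 1 ∨ κ = -1) → LinearMap.trace K (R.H.obj (tp M (m + 1)))
        (up R M (𝟙 _ + (d : K) • R.par (tp M 1)) m ≫
          R.H.map (p ≫ ((2⁻¹ : ℚ) • (𝟙 _ + κ • W)))).hom ≠ 0 → ∃ k, asym (-d) E k = 0 := by
      intro κ hκ htκ
      have hκκ : κ * κ = 1 := by rcases hκ with rfl | rfl <;> norm_num
      set z : tp M (m + 1) ⟶ tp M (m + 1) := (2⁻¹ : ℚ) • (𝟙 _ + κ • W) with hz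
      have hzp : z ≫ p = p ≫ z := by
        rw [hz, Linear.smul_comp, Linear.comp_smul, Preadditive.add_comp, Preadditive.comp_add,
          Linear.smul_comp, Linear.comp_smul, Category.id_comp, Category.comp_id, hWp]
      have hzW : z ≫ W = κ • z := by
        have e1 : W + κ • 𝟙 _ = κ • (𝟙 _ + κ • W) := by
          rw [smul_add, smul_smul, hκκ, one_smul]
          exact add_comm _ _
        rw [hz, Linear.smul_comp, Preadditive.add_comp, Linear.smul_comp, Category.id_comp, hWW,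
          e1, smul_comm]
      have hzz : z ≫ z = z := by
        have e1 : z ≫ z = (2⁻¹ : ℚ) • (z + κ • (z ≫ W)) := by
          conv_lhs => rw [hz, Linear.comp_smul, Preadditive.comp_add, Linear.comp_smul,
            Category.comp_id]
        rw [e1, hzW, smul_smul, hκκ, one_smul, ← two_smul ℚ, smul_smul]
        norm_num
      set q : tp M (m + 1) ⟶ tp M (m + 1) := p ≫ z with hq
      have hpq : p ≫ q = q := by rw [hq, reassoc_of% hpp]
      have hqz : q ≫ z = q := by rw [hq, Category.assoc, hzz]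
      have hzp' : z ≫ p = q := hzp
      have hqp : q ≫ p = q := by
        have e1 : q ≫ p = p ≫ z ≫ p := by rw [hq, Category.assoc]
        rw [e1, hzp', hpq]
      have hqq : q ≫ q = q := by
        have e1 : q ≫ q = p ≫ (z ≫ p) ≫ z := by rw [hq]; simp only [Category.assoc]
        rw [e1, hzp', hqz, hpq]
      obtain ⟨T₂, i₂, r₂, h2, h2'⟩ := IsIdempotentComplete.idempotents_split (tp M (m + 1)) q hqq
      have hiq : i₂ ≫ q = i₂ := by rw [← h2', reassoc_of% h2]
      have hretr : (i₂ ≫ r₁) ≫ (i₁ ≫ r₂) = 𝟙 T₂ := by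
        have e1 : (i₂ ≫ r₁) ≫ (i₁ ≫ r₂) = i₂ ≫ p ≫ r₂ := by
          rw [hpdef]; simp only [Category.assoc]
        have e2 : i₂ ≫ p = i₂ := by
          rw [← hiq, Category.assoc, hqp]
        rw [e1, reassoc_of% e2, h2]
      have hiW : i₂ ≫ W = κ • i₂ := by
        have e1 : q ≫ W = κ • q := by
          rw [hq, Category.assoc, hzW, Linear.comp_smul]
        rw [← hiq, Category.assoc, e1, Linear.comp_smul]
      have hpar2 : R.par T₂ = (κ : K) • 𝟙 _ := by
        have e1 : R.H.map i₂ ≫ R.H.map r₂ = 𝟙 _ := by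
          rw [← Functor.map_comp, h2, CategoryTheory.Functor.map_id]
        have e2 : R.par T₂ = R.par T₂ ≫ R.H.map i₂ ≫ R.H.map r₂ := by rw [e1, Category.comp_id]
        rw [e2, ← Category.assoc, ← R.par_natural, ← hHW, ← Functor.map_comp, hiW, R_smul,
          Linear.smul_comp, e1]
      obtain ⟨N, hN⟩ := h.summand R hU _ _ hretr hκ hpar2
      have hκ' : -κ = 1 ∨ -κ = -1 := by
        rcases hκ with rfl | rfl
        · right; rfl
        · left; rw [neg_neg]
      have hnil := Pool.Agent.K3h90.SF.t_NOPH (C := C) K R hU T₂ _ hκ' N hN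
      have hzN : en z ∈ Nat' s (m + 1) := by
        have e1 : en z = (2⁻¹ : ℚ) • ((1 : End (tp M (m + 1))) + κ • en W) := rfl
        have e2 : en W ∈ Nat' s (m + 1) := tpm_mem s (m + 1)
        rw [e1]
        exact Subalgebra.smul_mem (Nat' s (m + 1)) (Subalgebra.add_mem (Nat' s (m + 1))
          (Subalgebra.one_mem (Nat' s (m + 1))) (Subalgebra.smul_mem (Nat' s (m + 1)) e2 _)) _
      refine schur_mixed R hU hss hHs hd iE rE hE hE' m i₂ r₂ h2 ?_ hnil ?_
      · rw [h2']
        exact Subalgebra.mul_mem _ hzN (adjoin_le_nat s hri)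
      · rw [h2', ← hHW, ← Functor.map_comp]
        have e1 : q ≫ W = κ • q := by
          rw [hq, Category.assoc, hzW, Linear.comp_smul]
        rw [e1, R_smul, Linear.comp_smul, ModuleCat.hom_smul, map_smul]
        refine smul_ne_zero ?_ htκ
        intro hκ0
        have e2 : κ = 0 := by exact_mod_cast hκ0
        rw [e2] at hκκ
        norm_num at hκκ
    by_contra hcon
    apply ht
    have h1 := fun κ hκ => not_not.1 (fun hne => hcon (key κ hκ hne))
    have h2 : p = p ≫ ((2⁻¹ : ℚ) • (𝟙 _ + (1 : ℚ) • W)) +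
        p ≫ ((2⁻¹ : ℚ) • (𝟙 _ + (-1 : ℚ) • W)) := by
      rw [← Preadditive.comp_add, ← smul_add]
      have e1 : (𝟙 _ + (1 : ℚ) • W + (𝟙 _ + (-1 : ℚ) • W) : tp M (m + 1) ⟶ tp M (m + 1)) =
          (2 : ℚ) • 𝟙 _ := by module
      rw [e1, smul_smul]
      norm_num
    rw [h2, Functor.map_add, Preadditive.comp_add, ModuleCat.hom_add, map_add, h1 1 (Or.inl rfl),
      h1 (-1) (Or.inr rfl), add_zero]

end

end Pool.Agent.K3h8.SF
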