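import Pool.Agent.K3h8.KS.Main

/-!
# Kimura finiteness descends from Schur functors: definitions and statements of the parts
-/

set_option autoImplicit false
set_option linter.unusedSectionVars false
set_option linter.unusedSimpArgs false

open CategoryTheory Limits MonoidalCategory
open Pool.Agent.Y112.SR Pool.Agent.Y112.KD Pool.Agent.R905 Pool.Agent.K3h8.KS
open Pool.Agent.Y116.MT (tr)

namespace Pool.Agent.K3h8.SF

universe v u w

section

variable {C : Type u} [Category.{v} C] [MonoidalCategory C] [SymmetricCategory C]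

/-- The exchanges of neighbouring letters of `X ⊗ ⋯ ⊗ X` and the operator `s` on one letter. -/
inductive Gen {X : C} (s : X ⟶ X) : ∀ n : ℕ, (tp X n ⟶ tp X n) → Prop
  | last (n : ℕ) : Gen s (n + 2) (sw (tp X n) X)
  | sgn (n : ℕ) : Gen s (n + 1) (tp X n ◁ s)
  | lift (n : ℕ) (g : tp X n ⟶ tp X n) : Gen s n g → Gen s (n + 1) (g ▷ X)

/-- Concatenation of tensor powers. -/
def cat (X : C) (a : ℕ) : ∀ b : ℕ, tp X a ⊗ tp X b ≅ tp X (a + b)
  | 0 => ρ_ (tp X a)
  | b + 1 => (α_ (tp X a) (tp X b) X).symm ≪≫ whiskerRightIso (cat X a b) X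

lemma cat_zero (X : C) (a : ℕ) : (cat X a 0).hom = (ρ_ (tp X a)).hom := rfl

lemma cat_succ (X : C) (a b : ℕ) : (cat X a (b + 1)).hom =
    (α_ (tp X a) (tp X b) X).inv ≫ (cat X a b).hom ▷ X := rfl

/-- The first letter of a tensor power. -/
def kap (X : C) : ∀ m : ℕ, X ⊗ tp X m ≅ tp X (m + 1)
  | 0 => ρ_ X ≪≫ (λ_ X).symm
  | m + 1 => (α_ X (tp X m) X).symm ≪≫ whiskerRightIso (kap X m) X

lemma kap_zero (X : C) : (kap X 0).hom = (ρ_ X).hom ≫ (λ_ X).inv := rfl

lemma kap_succ (X : C) (m : ℕ) : (kap X (m + 1)).hom =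
    (α_ X (tp X m) X).inv ≫ (kap X m).hom ▷ X := rfl

/-- The operator `x` on the first letters of `k` blocks of `m + 1` letters. -/
def fx {X : C} (m k : ℕ) (x : tp X k ⟶ tp X k) : tp (tp X (m + 1)) k ⟶ tp (tp X (m + 1)) k :=
  tpm (kap X m).inv k ≫ zip X (tp X m) k ≫ (x ▷ tp (tp X m) k) ≫ unzip X (tp X m) k ≫
    tpm (kap X m).hom k

/-- The number of letters of `k` blocks of `n` letters. -/
def NN (n : ℕ) : ℕ → ℕ
  | 0 => 0
  | k + 1 => NN n k + n

/-- The letters of `k` blocks of `n` letters. -/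
def th (X : C) (n : ℕ) : ∀ k : ℕ, tp (tp X n) k ≅ tp X (NN n k)
  | 0 => Iso.refl _
  | k + 1 => whiskerRightIso (th X n k) (tp X n) ≪≫ cat X (NN n k) n

/-- The exchange of the last letter `X` of `P ⊗ X` with the first letter of the following block. -/
def bd (X : C) (m : ℕ) (P : C) : (P ⊗ X) ⊗ tp X (m + 1) ⟶ (P ⊗ X) ⊗ tp X (m + 1) :=
  ((P ⊗ X) ◁ (kap X m).inv) ≫ (α_ (P ⊗ X) X (tp X m)).inv ≫ (sw P X ▷ tp X m) ≫
    (α_ (P ⊗ X) X (tp X m)).hom ≫ ((P ⊗ X) ◁ (kap X m).hom)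

/-- The first letter of a block is moved to the last place. -/
def gam (X : C) (m : ℕ) : tp X (m + 1) ⟶ tp X (m + 1) := (kap X m).inv ≫ (β_ X (tp X m)).hom

/-- The last letter of a block is moved to the first place. -/
def gam' (X : C) (m : ℕ) : tp X (m + 1) ⟶ tp X (m + 1) := (β_ X (tp X m)).inv ≫ (kap X m).hom

end

section

variable {C : Type u} [Category.{v} C] [MonoidalCategory C] [SymmetricCategory C]
  [Preadditive C] [Linear ℚ C]

/-- The algebra generated by the exchanges of neighbouring letters and the operators `s` of the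
letters. -/
def Nat' {X : C} (s : X ⟶ X) (n : ℕ) : Subalgebra ℚ (End (tp X n)) :=
  Algebra.adjoin ℚ {g : End (tp X n) | Gen s n g}

/-- The iterated partial trace: only the first letter is left. -/
def pt1 {X : C} [RightRigidCategory C] : ∀ m : ℕ, (tp X (m + 1) ⟶ tp X (m + 1)) →
    (tp X 1 ⟶ tp X 1)
  | 0, x => x
  | m + 1, x => pt1 m (ptr x)

end

section

variable (C : Type u) [Category.{v} C] [MonoidalCategory C] [SymmetricCategory C]

/-- XI1: the exchange of the first letters of the last two blocks. -/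
def XI1 : Prop := ∀ (X : C) (m k : ℕ),
  fx m (k + 2) (sw (tp X k) X) =
    ((tp (tp X (m + 1)) k ◁ gam X m) ▷ tp X (m + 1)) ≫
    ((α_ (tp (tp X (m + 1)) k) (tp X m) X).inv ▷ tp X (m + 1)) ≫
    bd X m (tp (tp X (m + 1)) k ⊗ tp X m) ≫
    ((α_ (tp (tp X (m + 1)) k) (tp X m) X).hom ▷ tp X (m + 1)) ≫
    ((tp (tp X (m + 1)) k ◁ gam' X m) ▷ tp X (m + 1))

/-- XI2: the exchange of letters of neighbouring blocks is an exchange of neighbouring letters. -/
def XI2 : Prop := ∀ (X : C) (s : X ⟶ X) (b m : ℕ),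
  Gen s (b + 1 + (m + 1)) ((cat X (b + 1) (m + 1)).inv ≫ bd X m (tp X b) ≫
    (cat X (b + 1) (m + 1)).hom)

variable [Preadditive C] [Linear ℚ C]

/-- GAM: the rotations of the letters are products of exchanges. -/
def GAM [MonoidalPreadditive C] [MonoidalLinear ℚ C] : Prop := ∀ (X : C) (s : X ⟶ X) (m : ℕ),
  (gam X m : End (tp X (m + 1))) ∈ Nat' s (m + 1) ∧
    (gam' X m : End (tp X (m + 1))) ∈ Nat' s (m + 1)

variable [MonoidalPreadditive C] [MonoidalLinear ℚ C]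

/-- MONC 1: the algebra generated by the exchanges and the involutions of the letters is regular. -/
def MONC1 : Prop := ∀ (X : C) (s : X ⟶ X), s ≫ s = 𝟙 X → ∀ (n : ℕ) (w : End (tp X n)),
  w ∈ Nat' s n → ∃ u ∈ Nat' s n, w * u * w = w

variable [RightRigidCategory C]

/-- MONC 2: partial traces. -/
def MONC2 : Prop := ∀ (X : C) (s : X ⟶ X), s ≫ s = 𝟙 X → ∀ (δ ε : ℚ), tr (𝟙 X) = δ • 𝟙 _ →
  tr s = ε • 𝟙 _ → ∀ (n : ℕ) (x : tp X (n + 1) ⟶ tp X (n + 1)),
  (x : End (tp X (n + 1))) ∈ Nat' s (n + 1) → (ptr x : End (tp X n)) ∈ Nat' s n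

/-- MONC 3: one letter. -/
def MONC3 : Prop := ∀ (X : C) (s : X ⟶ X), s ≫ s = 𝟙 X → ∀ (x : tp X 1 ⟶ tp X 1),
  (x : End (tp X 1)) ∈ Nat' s 1 → ∃ a b : ℚ, x = a • 𝟙 _ + b • (tp X 0 ◁ s)

/-- BC: contraction of all blocks to the first letters. -/
def BC : Prop := ∀ (X : C) (k m : ℕ) (a' : tp X k ⟶ tp X k) (y : tp X (m + 1) ⟶ tp X (m + 1)),
  Blk (𝟙 (tp X k)) a' ((kap X m).hom ≫ y ≫ (kap X m).inv) →
    tpm ((λ_ X).inv ≫ pt1 m y ≫ (λ_ X).hom) k ≫ a' = 0

/-- NOPH: nilpotence for the tensor powers of an object with a vanishing power. -/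
def NOPH [IsIdempotentComplete C] : Prop := ∀ (K : Type w) [Field K] (R : SuperRealisation C K)
  (_ : UnitQ C) (T : C) (κ : ℚ) (_ : κ = 1 ∨ κ = -1) (a : ℕ), asym κ T a = 0 →
  ∀ k : ℕ, HomNil R (tp T k)

end

end Pool.Agent.K3h8.SF
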