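import Pool.Agent.K3h8.SF.Cl

/-!
# The exchanges of the first letters of blocks are natural
-/

set_option autoImplicit false
set_option linter.unusedSectionVars false
set_option linter.unusedSimpArgs false

open CategoryTheory Limits MonoidalCategory
open Pool.Agent.Y112.SR Pool.Agent.Y112.KD Pool.Agent.R905 Pool.Agent.K3h8.KS
open Pool.Agent.Y116.MT (tr)

namespace Pool.Agent.K3h8.SF

universe v u w

section

variable {C : Type u} [Category.{v} C] [MonoidalCategory C] [SymmetricCategory C]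

lemma bd_nat {X : C} (m : ℕ) {P P' : C} (t : P ⟶ P') :
    ((t ▷ X) ▷ tp X (m + 1)) ≫ bd X m P' = bd X m P ≫ ((t ▷ X) ▷ tp X (m + 1)) := by
  simp only [bd, Category.assoc]
  rw [← whisker_exchange_assoc, associator_inv_naturality_left_assoc,
    ← comp_whiskerRight_assoc, sw_nat_left, comp_whiskerRight_assoc,
    associator_naturality_left_assoc, whisker_exchange]

lemma th_succ_eq (X : C) (m k : ℕ) : (th X (m + 1) (k + 1)).hom =
    (α_ (tp (tp X (m + 1)) k) (tp X m) X).inv ≫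
      (((th X (m + 1) k).hom ▷ tp X m ≫ (cat X (NN (m + 1) k) m).hom) ▷ X) := by
  change ((th X (m + 1) k).hom ▷ tp X (m + 1)) ≫ (cat X (NN (m + 1) k) (m + 1)).hom = _
  rw [cat_succ, comp_whiskerRight]
  change ((th X (m + 1) k).hom ▷ (tp X m ⊗ X)) ≫ _ = _
  rw [associator_inv_naturality_left_assoc]

lemma conj_lem {A B D : C} (θ : A ≅ B) (u : A ⟶ D) (c : D ≅ B) (f : A ⟶ A) (g : D ⟶ D)
    (h : θ.hom = u ≫ c.hom) (h2 : f ≫ u = u ≫ g) :
    θ.inv ≫ f ≫ θ.hom = c.inv ≫ g ≫ c.hom := by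
  rw [Iso.inv_comp_eq, h, Category.assoc, Iso.hom_inv_id_assoc, reassoc_of% h2]

lemma mid_eq (X : C) (m k : ℕ) :
    (th X (m + 1) (k + 2)).inv ≫ (((α_ (tp (tp X (m + 1)) k) (tp X m) X).inv ▷ tp X (m + 1)) ≫
    bd X m (tp (tp X (m + 1)) k ⊗ tp X m) ≫
    ((α_ (tp (tp X (m + 1)) k) (tp X m) X).hom ▷ tp X (m + 1))) ≫ (th X (m + 1) (k + 2)).hom =
    (cat X (NN (m + 1) k + m + 1) (m + 1)).inv ≫ bd X m (tp X (NN (m + 1) k + m)) ≫
      (cat X (NN (m + 1) k + m + 1) (m + 1)).hom := by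
  set t : tp (tp X (m + 1)) k ⊗ tp X m ⟶ tp X (NN (m + 1) k + m) :=
    (th X (m + 1) k).hom ▷ tp X m ≫ (cat X (NN (m + 1) k) m).hom with ht
  have h1 : (th X (m + 1) (k + 2)).hom =
      (((α_ (tp (tp X (m + 1)) k) (tp X m) X).inv ▷ tp X (m + 1)) ≫
        ((t ▷ X) ▷ tp X (m + 1))) ≫ (cat X (NN (m + 1) k + m + 1) (m + 1)).hom := by
    change ((th X (m + 1) (k + 1)).hom ▷ tp X (m + 1)) ≫
      (cat X (NN (m + 1) k + m + 1) (m + 1)).hom = _
    rw [th_succ_eq]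
    change (((α_ (tp (tp X (m + 1)) k) (tp X m) X).inv ≫ (t ▷ X)) ▷ tp X (m + 1)) ≫ _ = _
    rw [comp_whiskerRight]
  have h5 : ((α_ (tp (tp X (m + 1)) k) (tp X m) X).hom ▷ tp X (m + 1)) ≫
      ((α_ (tp (tp X (m + 1)) k) (tp X m) X).inv ▷ tp X (m + 1)) = 𝟙 _ := by
    rw [← comp_whiskerRight, Iso.hom_inv_id, id_whiskerRight]
  refine conj_lem (th X (m + 1) (k + 2)) (((α_ (tp (tp X (m + 1)) k) (tp X m) X).inv ▷
    tp X (m + 1)) ≫ ((t ▷ X) ▷ tp X (m + 1))) (cat X (NN (m + 1) k + m + 1) (m + 1)) _ _ h1 ?_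
  simp only [Category.assoc]
  rw [reassoc_of% h5, bd_nat (X := X) m t]

end

section

variable {C : Type u} [Category.{v} C] [MonoidalCategory C] [SymmetricCategory C]
  [Preadditive C] [Linear ℚ C] [MonoidalPreadditive C] [MonoidalLinear ℚ C]

lemma fx_sw_mem (h1 : XI1 C) (h2 : XI2 C) (h3 : GAM C) {X : C} (s : X ⟶ X) (m k : ℕ) :
    en (fx m (k + 2) (sw (tp X k) X)) ∈ Bl s (m + 1) (k + 2) := by
  rw [h1 X m k]
  have e1 : en (X := tp (tp X (m + 1)) (k + 2))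
      (((α_ (tp (tp X (m + 1)) k) (tp X m) X).inv ▷ tp X (m + 1)) ≫
    bd X m (tp (tp X (m + 1)) k ⊗ tp X m) ≫
    ((α_ (tp (tp X (m + 1)) k) (tp X m) X).hom ▷ tp X (m + 1))) ∈ Bl s (m + 1) (k + 2) := by
    rw [mem_Bl]
    have := mid_eq X m k
    have h4 := h2 X s (NN (m + 1) k + m) m
    rw [← this] at h4
    exact Algebra.subset_adjoin h4
  have e2 : en (X := tp (tp X (m + 1)) (k + 2))
      ((tp (tp X (m + 1)) k ◁ gam X m) ▷ tp X (m + 1)) ∈ Bl s (m + 1) (k + 2) :=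
    bl_left (bl_right k (h3 X s m).1)
  have e3 : en (X := tp (tp X (m + 1)) (k + 2))
      ((tp (tp X (m + 1)) k ◁ gam' X m) ▷ tp X (m + 1)) ∈ Bl s (m + 1) (k + 2) :=
    bl_left (bl_right k (h3 X s m).2)
  have e4 := Subalgebra.mul_mem _ e3 (Subalgebra.mul_mem _ e1 e2)
  have e5 : en (X := tp (tp X (m + 1)) (k + 2))
      ((tp (tp X (m + 1)) k ◁ gam' X m) ▷ tp X (m + 1)) *
      (en (X := tp (tp X (m + 1)) (k + 2))
      (((α_ (tp (tp X (m + 1)) k) (tp X m) X).inv ▷ tp X (m + 1)) ≫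
    bd X m (tp (tp X (m + 1)) k ⊗ tp X m) ≫
    ((α_ (tp (tp X (m + 1)) k) (tp X m) X).hom ▷ tp X (m + 1))) *
      en (X := tp (tp X (m + 1)) (k + 2))
      ((tp (tp X (m + 1)) k ◁ gam X m) ▷ tp X (m + 1))) =
      en (((tp (tp X (m + 1)) k ◁ gam X m) ▷ tp X (m + 1)) ≫
    ((α_ (tp (tp X (m + 1)) k) (tp X m) X).inv ▷ tp X (m + 1)) ≫
    bd X m (tp (tp X (m + 1)) k ⊗ tp X m) ≫
    ((α_ (tp (tp X (m + 1)) k) (tp X m) X).hom ▷ tp X (m + 1)) ≫
    ((tp (tp X (m + 1)) k ◁ gam' X m) ▷ tp X (m + 1))) := by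
    rw [End.mul_def, End.mul_def]
    simp only [en, Category.assoc]
  rw [← e5]
  exact e4

lemma fx_succ {X : C} (m k : ℕ) (x : tp X k ⟶ tp X k) :
    fx m (k + 1) (x ▷ X) = fx m k x ▷ tp X (m + 1) := by
  have h1 : zip X (tp X m) (k + 1) ≫ ((x ▷ X) ▷ tp (tp X m) (k + 1)) ≫
      unzip X (tp X m) (k + 1) =
      (zip X (tp X m) k ≫ (x ▷ tp (tp X m) k) ≫ unzip X (tp X m) k) ▷ (X ⊗ tp X m) := by
    rw [zip_succ, unzip_succ]
    have e1 : tensorμ (tp X k) (tp (tp X m) k) X (tp X m) ≫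
        ((x ▷ X) ▷ (tp (tp X m) k ⊗ tp X m)) =
        ((x ▷ tp (tp X m) k) ▷ (X ⊗ tp X m)) ≫ tensorμ (tp X k) (tp (tp X m) k) X (tp X m) := by
      have := tensorμ_natural_left x (𝟙 (tp (tp X m) k)) X (tp X m)
      simpa using this.symm
    change ((zip X (tp X m) k ▷ (X ⊗ tp X m)) ≫ tensorμ (tp X k) (tp (tp X m) k) X (tp X m)) ≫
      ((x ▷ X) ▷ (tp (tp X m) k ⊗ tp X m)) ≫
      tensorδ (tp X k) (tp (tp X m) k) X (tp X m) ≫ (unzip X (tp X m) k ▷ (X ⊗ tp X m)) = _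
    rw [Category.assoc, reassoc_of% e1, tensorμ_tensorδ_assoc]
    simp only [comp_whiskerRight]
  have h2 : fx m (k + 1) (x ▷ X) = tpm (kap X m).inv (k + 1) ≫ (zip X (tp X m) (k + 1) ≫
      ((x ▷ X) ▷ tp (tp X m) (k + 1)) ≫ unzip X (tp X m) (k + 1)) ≫
      tpm (kap X m).hom (k + 1) := by
    rw [fx]
    simp only [Category.assoc]
  rw [h2, h1, tpm_succ, tpm_succ, ← tensorHom_id, tensorHom_comp_tensorHom,
    tensorHom_comp_tensorHom, Category.id_comp, Iso.inv_hom_id, tensorHom_id]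
  congr 1
  rw [fx]
  simp only [Category.assoc]
/-- `fx` as a homomorphism of algebras. -/
def fxA (X : C) (m k : ℕ) : End (tp X k) →ₐ[ℚ] End (tp (tp X (m + 1)) k) where
  toFun x := en (fx m k (x : tp X k ⟶ tp X k))
  map_one' := by
    change fx m k (𝟙 _) = 𝟙 _
    rw [fx, id_whiskerRight, Category.id_comp, ← Category.assoc (zip X (tp X m) k), zip_unzip,
      Category.id_comp, tpm_comp, Iso.inv_hom_id, tpm_id]
  map_mul' x y := by
    change fx m k ((y : tp X k ⟶ tp X k) ≫ (x : tp X k ⟶ tp X k)) =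
      fx m k (y : tp X k ⟶ tp X k) ≫ fx m k (x : tp X k ⟶ tp X k)
    have e1 : tpm (kap X m).hom k ≫ tpm (kap X m).inv k = 𝟙 _ := by
      rw [tpm_comp, Iso.hom_inv_id, tpm_id]
    simp only [fx, Category.assoc, comp_whiskerRight]
    rw [reassoc_of% e1, ← Category.assoc (unzip X (tp X m) k) (zip X (tp X m) k), unzip_zip,
      Category.id_comp]
  map_zero' := by
    change fx m k 0 = 0
    rw [fx, MonoidalPreadditive.zero_whiskerRight, zero_comp, comp_zero, comp_zero]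
  map_add' x y := by
    change fx m k ((x : tp X k ⟶ tp X k) + (y : tp X k ⟶ tp X k)) =
      fx m k (x : tp X k ⟶ tp X k) + fx m k (y : tp X k ⟶ tp X k)
    have e1 : ((x : tp X k ⟶ tp X k) + (y : tp X k ⟶ tp X k)) ▷ tp (tp X m) k =
        (x : tp X k ⟶ tp X k) ▷ tp (tp X m) k + (y : tp X k ⟶ tp X k) ▷ tp (tp X m) k :=
      MonoidalPreadditive.add_whiskerRight _ _
    rw [fx, e1]
    simp only [fx, Preadditive.add_comp, Preadditive.comp_add]
  commutes' c := by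
    change fx m k ((algebraMap ℚ (End (tp X k)) c : End (tp X k)) : tp X k ⟶ tp X k) =
      ((algebraMap ℚ (End (tp (tp X (m + 1)) k)) c : End (tp (tp X (m + 1)) k)) :
        tp (tp X (m + 1)) k ⟶ tp (tp X (m + 1)) k)
    rw [algebraMap_end, algebraMap_end]
    have e1 : fx m k (𝟙 (tp X k)) = 𝟙 _ := by
      rw [fx, id_whiskerRight, Category.id_comp, ← Category.assoc (zip X (tp X m) k), zip_unzip,
        Category.id_comp, tpm_comp, Iso.inv_hom_id, tpm_id]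
    rw [← e1]
    simp only [fx, MonoidalLinear.smul_whiskerRight, Linear.smul_comp, Linear.comp_smul]

lemma fx_swap_mem (h1 : XI1 C) (h2 : XI2 C) (h3 : GAM C) {X : C} (s : X ⟶ X) (m : ℕ) {k : ℕ}
    {g : tp X k ⟶ tp X k} (hg : IsSwap X k g) : en (fx m k g) ∈ Bl s (m + 1) k := by
  induction hg with
  | last n => exact fx_sw_mem h1 h2 h3 s m n
  | lift n g hg ih =>
    rw [fx_succ]
    exact bl_left ih

lemma fx_adjoin_mem (h1 : XI1 C) (h2 : XI2 C) (h3 : GAM C) {X : C} (s : X ⟶ X) (m : ℕ) {k : ℕ}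
    {x : End (tp X k)} (hx : x ∈ Algebra.adjoin ℚ {g : End (tp X k) | IsSwap X k g}) :
    en (fx m k (x : tp X k ⟶ tp X k)) ∈ Bl s (m + 1) k := by
  have h4 : Algebra.adjoin ℚ {g : End (tp X k) | IsSwap X k g} ≤
      (Bl s (m + 1) k).comap (fxA X m k) :=
    Algebra.adjoin_le fun g hg => fx_swap_mem h1 h2 h3 s m hg
  exact h4 hx

end

end Pool.Agent.K3h8.SF
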